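import Pool.Agent.H256R2.SC.Defs

set_option autoImplicit false

/-! # Large gaps between primes: from the covering theorem to a run of composite numbers

Helper file (helper144).  The covering theorem and the choice of residue classes modulo the small
primes enter as the statements `CovStmt` and `SurStmt`. -/

namespace Pool.Agent.U602.SQ.G

open Pool.Agent.H256R2.SC

open Finset

open scoped Classical

/-- the new lower bound function -/
noncomputable def ff (X : ℝ) : ℝ :=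
  Real.log X * (Real.log (Real.log X)) ^ 2 * Real.log (Real.log (Real.log (Real.log X))) /
    (Real.log (Real.log (Real.log X))) ^ 2

namespace LG

/-- the covering theorem at `X` with constant `c` -/
def CovAt (c X : ℝ) : Prop :=
    ∀ (B : Finset ℕ), (B.card : ℝ) ≤ 2 * Real.log X →
    ∀ (κ : Type) [Fintype κ] [DecidableEq κ], (Fintype.card κ : ℝ) ≤ c * Real.log X →
    ∀ (res : ℕ → κ → ℤ),
    (∀ p : ℕ, p.Prime → (Real.log X) ^ 2 < p → (p : ℝ) ≤ X ^ (1 / 10 : ℝ) → p ∉ B →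
      ∀ k l, k ≠ l → ¬ ((p : ℤ) ∣ res p k - res p l)) →
    ∀ (𝒜 : Finset ℤ) (N Err : ℝ), X ^ (1 / 2 : ℝ) ≤ N → 0 ≤ Err → Err ≤ X ^ (1 / 10 : ℝ) →
    (∀ q : ℕ, Squarefree q → (q : ℝ) ≤ X ^ (1 / 4 : ℝ) →
      (∀ p ∈ q.primeFactors, (Real.log X) ^ 2 < p ∧ p ∉ B) →
      ∀ r : ℤ, |((𝒜.filter (fun x => (q : ℤ) ∣ x - r)).card : ℝ) - N / q| ≤ Err) →
    ∃ x ∈ 𝒜, ∀ k : κ, ∃ p : ℕ, p.Prime ∧ (Real.log X) ^ 2 < p ∧ (p : ℝ) ≤ X ^ (1 / 10 : ℝ) ∧
      p ∉ B ∧ (p : ℤ) ∣ x - res p k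

/-! ## Arithmetic -/

theorem exists_crt (n : ℕ) (a : ℕ → ℕ) :
    ∃ b0 : ℕ, b0 < primorial n ∧ ∀ p : ℕ, p.Prime → p ≤ n → b0 ≡ a p [MOD p] := by
  have hs : ∀ i ∈ (range (n + 1)).filter Nat.Prime, (id i : ℕ) ≠ 0 := fun i hi =>
    (mem_filter.1 hi).2.ne_zero
  have pp : Set.Pairwise (((range (n + 1)).filter Nat.Prime : Finset ℕ) : Set ℕ)
      (Function.onFun Nat.Coprime id) := by
    intro i hi j hj hij
    have hi' := (mem_filter.1 (mem_coe.1 hi)).2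
    have hj' := (mem_filter.1 (mem_coe.1 hj)).2
    exact (Nat.coprime_primes hi' hj').2 hij
  refine ⟨Nat.chineseRemainderOfFinset a id _ hs pp, ?_, ?_⟩
  · exact Nat.chineseRemainderOfFinset_lt_prod a id hs pp
  · intro p hp hpn
    exact (Nat.chineseRemainderOfFinset a id _ hs pp).2 p
      (mem_filter.2 ⟨mem_range.2 (by omega), hp⟩)

theorem inv_exists {p P : ℕ} (hp : p.Prime) (h : ¬ p ∣ P) : ∃ i : ℤ, (p : ℤ) ∣ P * i - 1 := by
  have hc : IsCoprime (P : ℤ) (p : ℤ) :=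
    Nat.isCoprime_iff_coprime.2 ((Nat.Prime.coprime_iff_not_dvd hp).2 h).symm
  obtain ⟨u, v, huv⟩ := hc
  exact ⟨u, -v, by linear_combination huv⟩

theorem count_Ioc (a b : ℤ) (hab : a ≤ b) (q : ℕ) (hq : 0 < q) (r : ℤ) :
    |((((Ioc a b).filter (fun x => (q : ℤ) ∣ x - r)).card : ℕ) : ℝ) - ((b : ℝ) - a) / q| ≤ 1 := by
  have hq' : (0 : ℤ) < (q : ℤ) := by exact_mod_cast hq
  have h1 := Int.Ioc_filter_modEq_card a b hq' r
  have h2 : (Ioc a b).filter (fun x => (q : ℤ) ∣ x - r) =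
      (Ioc a b).filter (fun x => x ≡ r [ZMOD q]) := by
    refine filter_congr fun x _ => ?_
    rw [Int.modEq_comm, Int.modEq_iff_dvd]
  rw [h2]
  have hqQ : (0 : ℚ) < q := by exact_mod_cast hq
  have hmono : ⌊((a : ℚ) - r) / ((q : ℤ) : ℚ)⌋ ≤ ⌊((b : ℚ) - r) / ((q : ℤ) : ℚ)⌋ := by
    apply Int.floor_le_floor
    have : (a : ℚ) ≤ b := by exact_mod_cast hab
    push_cast
    gcongr
  rw [max_eq_left (by linarith)] at h1
  have h3 : ((((Ioc a b).filter (fun x => x ≡ r [ZMOD q])).card : ℕ) : ℚ) =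
      ((⌊((b : ℚ) - r) / ((q : ℤ) : ℚ)⌋ - ⌊((a : ℚ) - r) / ((q : ℤ) : ℚ)⌋ : ℤ) : ℚ) := by
    rw [← h1]
    simp
  have h4 : |((((Ioc a b).filter (fun x => x ≡ r [ZMOD q])).card : ℕ) : ℚ) -
      ((b : ℚ) - a) / q| ≤ 1 := by
    rw [h3]
    have e1 := Int.floor_le (((b : ℚ) - r) / ((q : ℤ) : ℚ))
    have e2 := Int.lt_floor_add_one (((b : ℚ) - r) / ((q : ℤ) : ℚ))
    have e3 := Int.floor_le (((a : ℚ) - r) / ((q : ℤ) : ℚ))
    have e4 := Int.lt_floor_add_one (((a : ℚ) - r) / ((q : ℤ) : ℚ))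
    have e5 : ((b : ℚ) - a) / q = ((b : ℚ) - r) / ((q : ℤ) : ℚ) - ((a : ℚ) - r) / ((q : ℤ) : ℚ) := by
      push_cast
      ring
    rw [e5, abs_le]
    push_cast
    push_cast at e1 e2 e3 e4
    constructor <;> linarith
  have h5 : ((|((((Ioc a b).filter (fun x => x ≡ r [ZMOD q])).card : ℕ) : ℚ) -
      ((b : ℚ) - a) / q| : ℚ) : ℝ) ≤ ((1 : ℚ) : ℝ) := by exact_mod_cast h4
  push_cast at h5
  exact h5

/-- the arithmetic core: a run of `L` composite numbers -/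
theorem run_arith {c X y : ℝ} {L : ℕ} (hcov : CovAt c X) (hX1 : 1 ≤ X) (hy0 : 0 ≤ y)
    (hyX : y ≤ (Real.log X) ^ 2) {b : ℕ → ℕ}
    (hb : ∀ p : ℕ, p.Prime → (p : ℝ) ≤ y → 1 ≤ b p ∧ b p < p)
    (hU : (((Finset.Icc 1 L).filter (fun k => ∀ p : ℕ, p.Prime → (p : ℝ) ≤ y →
        ¬ k ≡ b p [MOD p])).card : ℝ) ≤ c * Real.log X)
    (hL : (L : ℝ) ≤ (Real.log X) ^ 2)
    (hlog : 0 ≤ 2 * Real.log X)
    (hP : 4 * (primorial ⌊y⌋₊ : ℝ) ≤ X ^ (1 / 2 : ℝ)) (hX10 : 2 ≤ X ^ (1 / 10 : ℝ))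
    (hX4 : X ^ (1 / 10 : ℝ) ≤ X / 4) (hy4 : y ≤ X / 4) :
    ∃ x : ℕ, X / 4 < x ∧ (x : ℝ) ≤ X / 2 + primorial ⌊y⌋₊ ∧
      ∀ k : ℕ, 1 ≤ k → k ≤ L → ¬ (x + k).Prime := by
  classical
  set P : ℕ := primorial ⌊y⌋₊ with hPdef
  have hPpos : 0 < P := primorial_pos _
  have hPr : (0 : ℝ) < P := by exact_mod_cast hPpos
  obtain ⟨b0, hb0, hb0'⟩ := exists_crt ⌊y⌋₊ (fun p => p - b p)
  have hfloor : ∀ p : ℕ, p ≤ ⌊y⌋₊ ↔ (p : ℝ) ≤ y := fun p => Nat.le_floor_iff hy0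
  have hdvdP : ∀ p : ℕ, p.Prime → (p : ℝ) ≤ y → p ∣ P := fun p hp hpy =>
    (hp.dvd_primorial_iff).2 ((hfloor p).2 hpy)
  have hndvdP : ∀ p : ℕ, p.Prime → (Real.log X) ^ 2 < p → ¬ p ∣ P := by
    intro p hp hpX h
    have := (hfloor p).1 ((hp.dvd_primorial_iff).1 h)
    linarith
  have hb0b : ∀ p : ℕ, p.Prime → (p : ℝ) ≤ y → p ∣ b0 + b p := by
    intro p hp hpy
    have h1 := hb0' p hp ((hfloor p).2 hpy)
    have h2 := (hb p hp hpy).2
    have h3 : b0 + b p ≡ (p - b p) + b p [MOD p] := h1.add_right _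
    rw [Nat.sub_add_cancel h2.le] at h3
    exact (Nat.modEq_zero_iff_dvd).1 (h3.trans (by simp [Nat.ModEq]))
  -- inverses
  have hinv : ∀ p : ℕ, ∃ i : ℤ, p.Prime → ¬ p ∣ P → (p : ℤ) ∣ P * i - 1 := by
    intro p
    by_cases h : p.Prime ∧ ¬ p ∣ P
    · obtain ⟨i, hi⟩ := inv_exists h.1 h.2
      exact ⟨i, fun _ _ => hi⟩
    · exact ⟨0, fun h1 h2 => absurd ⟨h1, h2⟩ h⟩
  choose ip hip using hinv
  set U : Finset ℕ := (Finset.Icc 1 L).filter (fun k => ∀ p : ℕ, p.Prime → (p : ℝ) ≤ y →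
        ¬ k ≡ b p [MOD p]) with hUdef
  set A : Finset ℤ := Ioc ⌊X / (4 * P)⌋ ⌊X / (2 * P)⌋ with hA
  have hlt : X / (4 * P) ≤ X / (2 * P) := by
    apply div_le_div_of_nonneg_left (by linarith) (by positivity)
    linarith
  have hN : X ^ (1 / 2 : ℝ) ≤ X / (4 * P) := by
    rw [le_div_iff₀ (by positivity)]
    calc X ^ (1 / 2 : ℝ) * (4 * P) ≤ X ^ (1 / 2 : ℝ) * X ^ (1 / 2 : ℝ) := by gcongr
      _ = X := by
        rw [← Real.rpow_add (by linarith)]
        norm_num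
  obtain ⟨m, hmA, hm⟩ := hcov ∅ (by simpa using hlog) U (by simpa using hU)
    (fun p k => -((b0 : ℤ) + ((k : ℕ) : ℤ)) * ip p) (by
      intro p hp hp1 _ _ k l hkl hdvd
      have h1 := hip p hp (hndvdP p hp hp1)
      have h2 : (p : ℤ) ∣ ((l : ℕ) : ℤ) - ((k : ℕ) : ℤ) := by
        have h3 : (p : ℤ) ∣ (P : ℤ) * (-((b0 : ℤ) + ((k : ℕ) : ℤ)) * ip p -
            -((b0 : ℤ) + ((l : ℕ) : ℤ)) * ip p) := hdvd.mul_left _
        have h4 : (p : ℤ) ∣ (((l : ℕ) : ℤ) - ((k : ℕ) : ℤ)) * ((P : ℤ) * ip p - 1) := h1.mul_left _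
        have h5 := dvd_sub h3 h4
        have h6 : (P : ℤ) * (-((b0 : ℤ) + ((k : ℕ) : ℤ)) * ip p -
            -((b0 : ℤ) + ((l : ℕ) : ℤ)) * ip p) -
            (((l : ℕ) : ℤ) - ((k : ℕ) : ℤ)) * ((P : ℤ) * ip p - 1) =
            ((l : ℕ) : ℤ) - ((k : ℕ) : ℤ) := by ring
        rwa [h6] at h5
      have hk := mem_Icc.1 (mem_filter.1 k.2).1
      have hl := mem_Icc.1 (mem_filter.1 l.2).1
      have hpL : L < p := by
        have : (L : ℝ) < p := lt_of_le_of_lt hL hp1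
        exact_mod_cast this
      have h7 : ((l : ℕ) : ℤ) - ((k : ℕ) : ℤ) = 0 := by
        apply Int.eq_zero_of_abs_lt_dvd h2
        rw [abs_lt]
        constructor <;> omega
      apply hkl
      apply Subtype.ext
      omega)
    A (X / (4 * P)) 2 hN (by norm_num) hX10 (by
      intro q hq hq4 _ r
      have hq0 : 0 < q := Nat.pos_of_ne_zero hq.ne_zero
      have hq1 : (1 : ℝ) ≤ q := by exact_mod_cast hq0
      have h1 := count_Ioc ⌊X / (4 * P)⌋ ⌊X / (2 * P)⌋ (Int.floor_le_floor hlt) q hq0 r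
      have e1 := Int.floor_le (X / (4 * P))
      have e2 := Int.lt_floor_add_one (X / (4 * P))
      have e3 := Int.floor_le (X / (2 * P))
      have e4 := Int.lt_floor_add_one (X / (2 * P))
      have e5 : X / (2 * P) - X / (4 * P) = X / (4 * P) := by
        field_simp
        ring
      have h2 : |((⌊X / (2 * P)⌋ : ℝ) - ⌊X / (4 * P)⌋) / q - X / (4 * P) / q| ≤ 1 := by
        rw [← sub_div, abs_div, abs_of_pos (by linarith : (0 : ℝ) < q), div_le_one (by linarith)]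
        refine le_trans ?_ hq1
        rw [abs_le]
        constructor <;> linarith
      calc _ = |((((Ioc ⌊X / (4 * P)⌋ ⌊X / (2 * P)⌋).filter
              (fun x => (q : ℤ) ∣ x - r)).card : ℕ) : ℝ) -
              ((⌊X / (2 * P)⌋ : ℝ) - ⌊X / (4 * P)⌋) / q +
              (((⌊X / (2 * P)⌋ : ℝ) - ⌊X / (4 * P)⌋) / q - X / (4 * P) / q)| := by
            congr 1
            ring
        _ ≤ _ := abs_add_le _ _
        _ ≤ 2 := by linarith)
  rw [hA, mem_Ioc] at hmA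
  have hm1 : X / (4 * P) < m := by
    have := Int.lt_floor_add_one (X / (4 * P))
    have h2 : (⌊X / (4 * P)⌋ : ℝ) + 1 ≤ m := by exact_mod_cast hmA.1
    linarith
  have hm2 : (m : ℝ) ≤ X / (2 * P) := by
    have := Int.floor_le (X / (2 * P))
    have h2 : (m : ℝ) ≤ (⌊X / (2 * P)⌋ : ℝ) := by exact_mod_cast hmA.2
    linarith
  have hm0 : 0 < m := by
    have : (0 : ℝ) < m := lt_of_le_of_lt (by positivity) hm1
    exact_mod_cast this
  obtain ⟨m', rfl⟩ := Int.eq_ofNat_of_zero_le hm0.le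
  have hPm1 : X / 4 < P * m' := by
    have h1 : X / (4 * P) < ((m' : ℕ) : ℝ) := by exact_mod_cast hm1
    rw [div_lt_iff₀ (by positivity)] at h1
    linarith
  have hPm2 : (P * m' : ℝ) ≤ X / 2 := by
    have h1 : ((m' : ℕ) : ℝ) ≤ X / (2 * P) := by exact_mod_cast hm2
    rw [le_div_iff₀ (by positivity)] at h1
    linarith
  have hxr : ((b0 + P * m' : ℕ) : ℝ) = b0 + P * m' := by push_cast; ring
  have hb0r : (0 : ℝ) ≤ b0 := by positivity
  have hb0P : (b0 : ℝ) ≤ P := by exact_mod_cast hb0.le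
  refine ⟨b0 + P * m', by rw [hxr]; linarith, by rw [hxr]; linarith, ?_⟩
  intro k hk1 hkL hprime
  have hcomp : ∀ p : ℕ, p.Prime → (p : ℝ) ≤ X / 4 → ¬ p ∣ b0 + P * m' + k := by
    intro p hp hpX h
    have h1 := (Nat.prime_dvd_prime_iff_eq hp hprime).1 h
    have h2 : (p : ℝ) = b0 + P * m' + k := by
      rw [h1]
      push_cast
      ring
    have h3 : (0 : ℝ) ≤ k := by positivity
    linarith
  by_cases hkU : k ∈ U
  · obtain ⟨p, hp, hp1, hp2, -, hp3⟩ := hm ⟨k, hkU⟩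
    apply hcomp p hp (hp2.trans hX4)
    have h1 := hip p hp (hndvdP p hp hp1)
    have h2 : (p : ℤ) ∣ ((b0 + P * m' + k : ℕ) : ℤ) := by
      have h3 := hp3.mul_left (P : ℤ)
      have h4 := h1.mul_left ((b0 : ℤ) + (k : ℤ))
      have h5 := dvd_sub h3 h4
      have h6 : (P : ℤ) * ((m' : ℤ) - -((b0 : ℤ) + (k : ℤ)) * ip p) -
          ((b0 : ℤ) + (k : ℤ)) * ((P : ℤ) * ip p - 1) = ((b0 + P * m' + k : ℕ) : ℤ) := by
        push_cast
        ring
      rwa [← h6]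
    exact_mod_cast h2
  · have hkU' : ¬ ∀ p : ℕ, p.Prime → (p : ℝ) ≤ y → ¬ k ≡ b p [MOD p] := fun h =>
      hkU (mem_filter.2 ⟨mem_Icc.2 ⟨hk1, hkL⟩, h⟩)
    push Not at hkU'
    obtain ⟨p, hp, hpy, hkp⟩ := hkU'
    apply hcomp p hp (hpy.trans hy4)
    have h1 : b0 + k ≡ b0 + b p [MOD p] := hkp.add_left _
    have h2 : p ∣ b0 + k := (Nat.modEq_zero_iff_dvd).1
      (h1.trans ((Nat.modEq_zero_iff_dvd).2 (hb0b p hp hpy)))
    have h3 : p ∣ P * m' := (hdvdP p hp hpy).mul_right _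
    have h4 : b0 + P * m' + k = (b0 + k) + P * m' := by ring
    rw [h4]
    exact dvd_add h2 h3

/-! ## Analysis -/

/-- the statement of the covering theorem -/
def CovStmt : Prop := ∃ c : ℝ, 0 < c ∧ ∃ X₀ : ℝ, ∀ X : ℝ, X₀ ≤ X → CovAt c X

/-- the statement on the choice of residue classes modulo the small primes -/
def SurStmt : Prop := ∃ C : ℝ, 0 < C ∧ ∃ y₀ : ℝ, ∀ y : ℝ, y₀ ≤ y → ∀ L : ℕ, y ≤ L →
    (L : ℝ) ≤ y * (Real.log y) ^ 2 →
    ∃ b : ℕ → ℕ, (∀ p : ℕ, p.Prime → (p : ℝ) ≤ y → 1 ≤ b p ∧ b p < p) ∧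
      (((Finset.Icc 1 L).filter (fun k => ∀ p : ℕ, p.Prime → (p : ℝ) ≤ y →
        ¬ k ≡ b p [MOD p])).card : ℝ) ≤
      C * L * (Real.log (Real.log y)) ^ 2 /
        ((Real.log y) ^ 2 * Real.log (Real.log (Real.log y)))

/-- iterated logarithms are large -/
theorem ev_log (M : ℝ) : ∃ X₀ : ℝ, ∀ X : ℝ, X₀ ≤ X → 1 ≤ X ∧ M ≤ Real.log X ∧
    M ≤ Real.log (Real.log X) ∧ M ≤ Real.log (Real.log (Real.log X)) ∧
    M ≤ Real.log (Real.log (Real.log (Real.log X))) := by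
  have t1 := Real.tendsto_log_atTop
  have t2 := t1.comp t1
  have t3 := t1.comp t2
  have t4 := t1.comp t3
  have h := (Filter.eventually_ge_atTop (1 : ℝ)).and ((t1.eventually_ge_atTop M).and
    ((t2.eventually_ge_atTop M).and ((t3.eventually_ge_atTop M).and (t4.eventually_ge_atTop M))))
  obtain ⟨X₀, hX⟩ := Filter.eventually_atTop.1 h
  exact ⟨X₀, fun X hXX => hX X hXX⟩

theorem half_log {t s : ℝ} (hs : t / 10 ≤ s) (ht : 2 * Real.log 10 ≤ Real.log t) (ht0 : 0 < t) :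
    Real.log t / 2 ≤ Real.log s := by
  have h1 : Real.log (t / 10) ≤ Real.log s := Real.log_le_log (by positivity) hs
  rw [Real.log_div ht0.ne' (by norm_num)] at h1
  linarith

theorem log_sq_le {t : ℝ} (ht : 1 ≤ t) : (Real.log t) ^ 2 ≤ 4 * t := by
  have h0 : 0 < t := by linarith
  have h1 : Real.log t = 2 * Real.log (√t) := by
    rw [Real.log_sqrt h0.le]
    ring
  have h2 : Real.log (√t) ≤ √t - 1 := Real.log_le_sub_one_of_pos (Real.sqrt_pos.2 h0)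
  have h3 : 0 ≤ Real.log (√t) := Real.log_nonneg (by rw [Real.one_le_sqrt]; exact ht)
  have h4 : √t ^ 2 = t := Real.sq_sqrt h0.le
  rw [h1]
  nlinarith

theorem log10_lt : Real.log 10 < 2.5 := by
  have h : Real.log 10 = Real.log 2 + Real.log 5 := by
    rw [← Real.log_mul (by norm_num) (by norm_num)]
    norm_num
  have h2 := Real.log_two_lt_d9
  have h5 : Real.log 5 ≤ Real.log 8 := Real.log_le_log (by norm_num) (by norm_num)
  have h8 : Real.log 8 = 3 * Real.log 2 := by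
    rw [show (8 : ℝ) = 2 ^ 3 by norm_num, Real.log_pow]
    norm_num
  -- log 5 = (1/4) log 625 ≤ (1/4) log 640 ..: use 5^3 ≤ 2^7
  have h6 : 3 * Real.log 5 ≤ 7 * Real.log 2 := by
    have e1 : 3 * Real.log 5 = Real.log (5 ^ 3) := by rw [Real.log_pow]; norm_num
    have e2 : 7 * Real.log 2 = Real.log (2 ^ 7) := by rw [Real.log_pow]; norm_num
    rw [e1, e2]
    exact Real.log_le_log (by norm_num) (by norm_num)
  linarith

/-- all inequalities needed -/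
theorem ana {c C y₀ : ℝ} (hc : 0 < c) (hC : 0 < C) : ∃ c' : ℝ, 0 < c' ∧ ∃ X₀ : ℝ, ∀ X : ℝ,
    X₀ ≤ X → ∀ y F : ℝ, y = Real.log X / 10 → F = c' * ff X → ∀ L : ℕ, L = ⌊F⌋₊ →
    1 ≤ X ∧ 0 ≤ Real.log X ∧ y₀ ≤ y ∧ 0 ≤ y ∧ y ≤ L ∧ (L : ℝ) ≤ F ∧
      (L : ℝ) ≤ y * (Real.log y) ^ 2 ∧
      C * L * (Real.log (Real.log y)) ^ 2 /
        ((Real.log y) ^ 2 * Real.log (Real.log (Real.log y))) ≤ c * Real.log X ∧
      (L : ℝ) ≤ (Real.log X) ^ 2 ∧ y ≤ (Real.log X) ^ 2 ∧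
      4 * (primorial ⌊y⌋₊ : ℝ) ≤ X ^ (1 / 2 : ℝ) ∧ 2 ≤ X ^ (1 / 10 : ℝ) ∧
      X ^ (1 / 10 : ℝ) ≤ X / 4 ∧ y ≤ X / 4 ∧ Real.sqrt X ≤ X / 4 ∧
      X / 2 + primorial ⌊y⌋₊ + F ≤ X ∧ 0 ≤ F := by
  refine ⟨c / (8 * C), by positivity, ?_⟩
  set c' : ℝ := c / (8 * C) with hc'
  have hc'0 : 0 < c' := by positivity
  obtain ⟨X₀, hX₀⟩ := ev_log (max (max 100 (40 * c')) (max (10 * y₀) (4 / c')))
  refine ⟨X₀, fun X hX y F hy hF L hL => ?_⟩
  obtain ⟨hX1, m1, m2, m3, m4⟩ := hX₀ X hX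
  set M : ℝ := max (max 100 (40 * c')) (max (10 * y₀) (4 / c')) with hM
  have M1 : 100 ≤ M := (le_max_left _ _).trans (le_max_left _ _)
  have M2 : 40 * c' ≤ M := (le_max_right _ _).trans (le_max_left _ _)
  have M3 : 10 * y₀ ≤ M := (le_max_left _ _).trans (le_max_right _ _)
  have M4 : 4 / c' ≤ M := (le_max_right _ _).trans (le_max_right _ _)
  set l1 := Real.log X with hl1
  set l2 := Real.log l1 with hl2
  set l3 := Real.log l2 with hl3
  set l4 := Real.log l3 with hl4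
  have p1 : 0 < l1 := by linarith
  have p2 : 0 < l2 := by linarith
  have p3 : 0 < l3 := by linarith
  have p4 : 0 < l4 := by linarith
  have hlog10 := log10_lt
  have hXpos : 0 < X := by linarith
  have hXexp : X = Real.exp l1 := (Real.exp_log hXpos).symm
  -- logs of y
  have y1 : l2 / 2 ≤ Real.log y := half_log (by rw [hy]) (by linarith) p1
  have y2 : l3 / 2 ≤ Real.log (Real.log y) := by
    apply half_log _ (by linarith) p2
    linarith
  have y3 : l4 / 2 ≤ Real.log (Real.log (Real.log y)) := by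
    apply half_log _ (by linarith) p3
    linarith
  have hypos : 0 < y := by rw [hy]; positivity
  have hlogy : 0 < Real.log y := by linarith
  have hloglogy : 0 < Real.log (Real.log y) := by linarith
  have hylog : Real.log y ≤ l2 := by
    apply Real.log_le_log hypos
    rw [hy]
    linarith
  have y2' : Real.log (Real.log y) ≤ l3 := Real.log_le_log hlogy hylog
  have hff : ff X = l1 * l2 ^ 2 * l4 / l3 ^ 2 := rfl
  have q1 : l3 ^ 2 ≤ 4 * l2 := log_sq_le (by linarith)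
  have q2 : l2 ^ 2 ≤ 4 * l1 := log_sq_le (by linarith)
  have q3 : l4 ≤ l3 := by
    have := Real.log_le_sub_one_of_pos p3
    linarith
  have hF0 : 0 ≤ F := by
    rw [hF, hff]
    positivity
  have hLF : (L : ℝ) ≤ F := by
    rw [hL]
    exact Nat.floor_le hF0
  have hFL : F - 1 ≤ L := by
    rw [hL]
    have := Nat.lt_floor_add_one F
    linarith
  -- lower bound for F
  have F1 : l1 ≤ F := by
    rw [hF, hff]
    have h1 : l1 * l2 ^ 2 * l4 / (4 * l2) ≤ l1 * l2 ^ 2 * l4 / l3 ^ 2 := by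
      apply div_le_div_of_nonneg_left (by positivity) (by positivity) q1
    have h2 : l1 * l2 ^ 2 * l4 / (4 * l2) = l1 * (l2 * l4) / 4 := by
      field_simp
    have h3 : 4 ≤ c' * M := by
      rw [div_le_iff₀ hc'0] at M4
      linarith
    have h4 : c' * M ≤ c' * l2 := by gcongr
    have h5 : 4 * 1 ≤ (c' * l2) * l4 := by
      apply mul_le_mul (by linarith) (by linarith) (by norm_num) (by positivity)
    calc l1 = l1 * (4 * 1) / 4 := by ring
      _ ≤ l1 * ((c' * l2) * l4) / 4 := by gcongr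
      _ = c' * (l1 * (l2 * l4) / 4) := by ring
      _ ≤ c' * (l1 * l2 ^ 2 * l4 / l3 ^ 2) := by
        rw [← h2]
        gcongr
  -- upper bound for F
  have F2 : F ≤ l1 * l2 ^ 2 / 40 := by
    rw [hF, hff]
    have h1 : l4 / l3 ^ 2 ≤ 1 / M := by
      rw [div_le_div_iff₀ (by positivity) (by linarith)]
      nlinarith
    have h2 : c' * (1 / M) ≤ 1 / 40 := by
      rw [mul_one_div, div_le_div_iff₀ (by linarith) (by norm_num)]
      linarith
    calc c' * (l1 * l2 ^ 2 * l4 / l3 ^ 2) = l1 * l2 ^ 2 * (c' * (l4 / l3 ^ 2)) := by ring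
      _ ≤ l1 * l2 ^ 2 * (c' * (1 / M)) := by gcongr
      _ ≤ l1 * l2 ^ 2 * (1 / 40) := by gcongr
      _ = _ := by ring
  have F3 : F ≤ l1 ^ 2 := by
    refine F2.trans ?_
    nlinarith
  -- powers of X
  have hroot : ∀ a : ℝ, X ^ a = Real.exp (l1 * a) := fun a => Real.rpow_def_of_pos hXpos a
  have hP : (primorial ⌊y⌋₊ : ℝ) ≤ Real.exp (l1 / 5) := by
    have h1 : (primorial ⌊y⌋₊ : ℝ) ≤ 4 ^ ⌊y⌋₊ := by exact_mod_cast primorial_le_four_pow _
    refine h1.trans ?_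
    have h2 : (4 : ℝ) ≤ Real.exp 2 := by
      have := Real.add_one_le_exp (1 : ℝ)
      calc (4 : ℝ) = 2 * 2 := by norm_num
        _ ≤ Real.exp 1 * Real.exp 1 := by gcongr <;> linarith
        _ = Real.exp 2 := by rw [← Real.exp_add]; norm_num
    calc (4 : ℝ) ^ ⌊y⌋₊ ≤ (Real.exp 2) ^ ⌊y⌋₊ := by gcongr
      _ = Real.exp (⌊y⌋₊ * 2) := by rw [← Real.exp_nat_mul]
      _ ≤ Real.exp (l1 / 5) := by
        apply Real.exp_le_exp.2
        have := Nat.floor_le hypos.le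
        linarith
  have e2 : (4 : ℝ) ≤ Real.exp 2 := by
    have := Real.add_one_le_exp (1 : ℝ)
    calc (4 : ℝ) = 2 * 2 := by norm_num
      _ ≤ Real.exp 1 * Real.exp 1 := by gcongr <;> linarith
      _ = Real.exp 2 := by rw [← Real.exp_add]; norm_num
  have hexp4 : ∀ a b : ℝ, a + 2 ≤ b → 4 * Real.exp a ≤ Real.exp b := by
    intro a b hab
    calc 4 * Real.exp a ≤ Real.exp 2 * Real.exp a := by gcongr
      _ = Real.exp (2 + a) := by rw [← Real.exp_add]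
      _ ≤ Real.exp b := Real.exp_le_exp.2 (by linarith)
  have hquad : l1 ^ 2 ≤ X / 8 := by
    -- log X = 4 log X^{1/4}
    have h1 : l1 / 4 ≤ Real.exp (l1 / 4) := by
      have := Real.add_one_le_exp (l1 / 4)
      linarith
    have h2 : (l1 / 4) ^ 2 ≤ Real.exp (l1 / 2) := by
      calc (l1 / 4) ^ 2 ≤ (Real.exp (l1 / 4)) ^ 2 := by gcongr
        _ = Real.exp (l1 / 2) := by
          rw [sq, ← Real.exp_add]
          congr 1
          ring
    have h3 : 128 * Real.exp (l1 / 2) ≤ X := by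
      have a1 := hexp4 (l1 / 2) (l1 / 2 + 2) le_rfl
      have a2 := hexp4 (l1 / 2 + 2) (l1 / 2 + 4) (by linarith)
      have a3 := hexp4 (l1 / 2 + 4) (l1 / 2 + 6) (by linarith)
      have a4 := hexp4 (l1 / 2 + 6) l1 (by linarith)
      rw [← hXexp] at a4
      have a5 := Real.exp_pos (l1 / 2)
      linarith
    nlinarith
  refine ⟨hX1, p1.le, ?_, hypos.le, ?_, hLF, ?_, ?_, ?_, ?_, ?_, ?_, ?_, ?_, ?_, ?_, hF0⟩
  · rw [hy]
    linarith
  · -- y ≤ L
    rw [hy]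
    linarith
  · -- L ≤ y (log y)²
    refine hLF.trans (F2.trans ?_)
    have h1 : (l2 / 2) ^ 2 ≤ (Real.log y) ^ 2 := by gcongr
    calc l1 * l2 ^ 2 / 40 = l1 / 10 * (l2 / 2) ^ 2 := by ring
      _ ≤ l1 / 10 * (Real.log y) ^ 2 := by gcongr
      _ = y * (Real.log y) ^ 2 := by rw [hy]
  · -- number of survivors
    have h1 : C * L * (Real.log (Real.log y)) ^ 2 /
        ((Real.log y) ^ 2 * Real.log (Real.log (Real.log y))) ≤
        C * F * l3 ^ 2 / ((l2 / 2) ^ 2 * (l4 / 2)) := by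
      gcongr
    refine h1.trans ?_
    rw [hF, hff]
    have h2 : C * (c' * (l1 * l2 ^ 2 * l4 / l3 ^ 2)) * l3 ^ 2 / ((l2 / 2) ^ 2 * (l4 / 2)) =
        8 * C * c' * l1 := by
      field_simp
      ring
    rw [h2, hc']
    have h3 : 8 * C * (c / (8 * C)) * l1 = c * l1 := by
      field_simp
    rw [h3]
  · exact hLF.trans F3
  · rw [hy]
    nlinarith
  · calc 4 * (primorial ⌊y⌋₊ : ℝ) ≤ 4 * Real.exp (l1 / 5) := by gcongr
      _ ≤ Real.exp (l1 * (1 / 2)) := hexp4 _ _ (by linarith)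
      _ = X ^ (1 / 2 : ℝ) := (hroot _).symm
  · rw [hroot]
    have h1 : Real.exp 2 ≤ Real.exp (l1 * (1 / 10)) := Real.exp_le_exp.2 (by linarith)
    linarith
  · rw [hroot]
    have h1 := hexp4 (l1 * (1 / 10)) l1 (by linarith)
    rw [← hXexp] at h1
    linarith
  · rw [hy]
    nlinarith
  · have h1 : Real.sqrt X = Real.exp (l1 / 2) := by
      rw [Real.sqrt_eq_rpow, hroot]
      congr 1
      ring
    have h2 := hexp4 (l1 / 2) l1 (by linarith)
    rw [← hXexp] at h2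
    rw [h1]
    linarith
  · have h1 := hexp4 (l1 / 5) l1 (by linarith)
    rw [← hXexp] at h1
    linarith

theorem composite_run_of (hcov : CovStmt) (hsur : SurStmt) :
    ∃ c : ℝ, 0 < c ∧ ∃ X₀ : ℝ, ∀ X : ℝ, X₀ ≤ X →
    ∃ x : ℕ, Real.sqrt X ≤ x ∧ (x : ℝ) + c * ff X ≤ X ∧
      ∀ k : ℕ, 1 ≤ k → (k : ℝ) ≤ c * ff X → ¬ (x + k).Prime := by
  obtain ⟨c, hc, X₁, hX₁⟩ := hcov
  obtain ⟨C, hC, y₀, hy₀⟩ := hsur
  obtain ⟨c', hc', X₂, hX₂⟩ := ana (y₀ := y₀) hc hC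
  refine ⟨c', hc', max X₁ X₂, fun X hX => ?_⟩
  obtain ⟨a1, a2, a3, a4, a5, a6, a7, a8, a9, a10, a11, a12, a13, a14, a15, a16, a17⟩ :=
    hX₂ X ((le_max_right _ _).trans hX) _ _ rfl rfl _ rfl
  obtain ⟨b, hb, hU⟩ := hy₀ _ a3 _ a5 a7
  obtain ⟨x, hx1, hx2, hx3⟩ := run_arith (hX₁ X ((le_max_left _ _).trans hX)) a1 a4 a10 hb
    (hU.trans a8) a9 (by linarith) a11 a12 a13 a14
  refine ⟨x, a15.trans hx1.le, by linarith, fun k hk1 hk2 => hx3 k hk1 ?_⟩
  exact Nat.le_floor hk2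

/-- comparison of `ff (X/2)` and `ff X` -/
theorem ff_half : ∃ X₀ : ℝ, ∀ X : ℝ, X₀ ≤ X → ff X / 16 ≤ ff (X / 2) := by
  obtain ⟨X₀, hX₀⟩ := ev_log 100
  refine ⟨X₀, fun X hX => ?_⟩
  obtain ⟨hX1, m1, m2, m3, m4⟩ := hX₀ X hX
  have hlog10 := log10_lt
  set l1 := Real.log X with hl1
  set l2 := Real.log l1 with hl2
  set l3 := Real.log l2 with hl3
  set l4 := Real.log l3 with hl4
  have y0 : l1 / 2 ≤ Real.log (X / 2) := half_log (by linarith) (by linarith) (by linarith)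
  have y1 : l2 / 2 ≤ Real.log (Real.log (X / 2)) := half_log (by linarith) (by linarith)
    (by linarith)
  have y2 : l3 / 2 ≤ Real.log (Real.log (Real.log (X / 2))) := half_log (by linarith)
    (by linarith) (by linarith)
  have y3 : l4 / 2 ≤ Real.log (Real.log (Real.log (Real.log (X / 2)))) :=
    half_log (by linarith) (by linarith) (by linarith)
  have z0 : Real.log (X / 2) ≤ l1 := Real.log_le_log (by linarith) (by linarith)
  have z1 : Real.log (Real.log (X / 2)) ≤ l2 := Real.log_le_log (by linarith) z0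
  have z2 : Real.log (Real.log (Real.log (X / 2))) ≤ l3 := Real.log_le_log (by linarith) z1
  have hff : ff X = l1 * l2 ^ 2 * l4 / l3 ^ 2 := rfl
  rw [hff]
  unfold ff
  have p3 : 0 < Real.log (Real.log (Real.log (X / 2))) := by linarith
  calc l1 * l2 ^ 2 * l4 / l3 ^ 2 / 16 = (l1 / 2) * (l2 / 2) ^ 2 * (l4 / 2) / l3 ^ 2 := by ring
    _ ≤ _ := by
      have q1 : 0 ≤ l1 / 2 := by linarith
      have q2 : 0 ≤ l2 / 2 := by linarith
      have q4 : 0 ≤ l4 / 2 := by linarith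
      have q5 : 0 ≤ Real.log (X / 2) := by linarith
      have q6 : 0 ≤ Real.log (Real.log (Real.log (Real.log (X / 2)))) := by linarith
      gcongr

theorem large_gaps_of (hrun : ∃ c : ℝ, 0 < c ∧ ∃ X₀ : ℝ, ∀ X : ℝ, X₀ ≤ X →
    ∃ x : ℕ, Real.sqrt X ≤ x ∧ (x : ℝ) + c * ff X ≤ X ∧
      ∀ k : ℕ, 1 ≤ k → (k : ℝ) ≤ c * ff X → ¬ (x + k).Prime) :
    ∃ c : ℝ, 0 < c ∧ ∃ X₀ : ℝ, ∀ X : ℝ, X₀ ≤ X →
    ∃ m : ℕ, (Nat.nth Nat.Prime (m + 1) : ℝ) ≤ X ∧
      c * ff X ≤ (Nat.nth Nat.Prime (m + 1) : ℝ) - Nat.nth Nat.Prime m := by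
  obtain ⟨c, hc, X₁, hX₁⟩ := hrun
  obtain ⟨X₂, hX₂⟩ := ff_half
  obtain ⟨X₃, hX₃⟩ := ev_log 100
  refine ⟨c / 16, by positivity, max (2 * X₁) (max (2 * X₃) (max X₂ 32)), fun X hX => ?_⟩
  have h1 : X₁ ≤ X / 2 := by
    have := (le_max_left _ _).trans hX
    linarith
  have h3 : X₃ ≤ X / 2 := by
    have := ((le_max_left _ _).trans (le_max_right _ _)).trans hX
    linarith
  have h2 : X₂ ≤ X := ((le_max_left _ _).trans ((le_max_right _ _).trans (le_max_right _ _))).trans hX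
  have h4 : 32 ≤ X := ((le_max_right _ _).trans ((le_max_right _ _).trans (le_max_right _ _))).trans hX
  obtain ⟨x, hx1, hx2, hx3⟩ := hX₁ (X / 2) h1
  have hff0 : 0 < ff (X / 2) := by
    obtain ⟨-, n1, n2, n3, n4⟩ := hX₃ (X / 2) h3
    unfold ff
    have e1 : 0 < Real.log (X / 2) := by linarith
    have e2 : 0 < Real.log (Real.log (X / 2)) := by linarith
    have e3 : 0 < Real.log (Real.log (Real.log (X / 2))) := by linarith
    have e4 : 0 < Real.log (Real.log (Real.log (Real.log (X / 2)))) := by linarith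
    positivity
  have hx2' : 2 ≤ x := by
    have h5 : (4 : ℝ) ≤ Real.sqrt (X / 2) := by
      apply Real.le_sqrt_of_sq_le
      linarith
    have : (2 : ℝ) ≤ x := by linarith
    exact_mod_cast this
  -- the number of primes up to x
  set m1 : ℕ := Nat.count Nat.Prime (x + 1) with hm1
  have hm1pos : 0 < m1 := by
    rw [hm1]
    have := Nat.count_monotone Nat.Prime (show 3 ≤ x + 1 by omega)
    have h2 : Nat.count Nat.Prime 3 = 1 := by decide
    omega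
  obtain ⟨m, hm⟩ : ∃ m, m1 = m + 1 := ⟨m1 - 1, by omega⟩
  refine ⟨m, ?_, ?_⟩
  · -- Bertrand
    set n : ℕ := ⌊X / 2⌋₊ with hn
    have hn0 : n ≠ 0 := by
      rw [hn]
      have : 1 ≤ ⌊X / 2⌋₊ := Nat.one_le_floor_iff _ |>.2 (by linarith)
      omega
    obtain ⟨r, hr, hr1, hr2⟩ := Nat.exists_prime_lt_and_le_two_mul n hn0
    have hxn : x ≤ n := by
      rw [hn]
      apply Nat.le_floor
      have : 0 ≤ c * ff (X / 2) := by positivity
      linarith
    have h5 : Nat.nth Nat.Prime m1 ≤ r := by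
      have h6 : m1 ≤ Nat.count Nat.Prime r := Nat.count_monotone _ (by omega)
      calc Nat.nth Nat.Prime m1 ≤ Nat.nth Nat.Prime (Nat.count Nat.Prime r) :=
            Nat.nth_monotone Nat.infinite_setOfPred_prime h6
        _ = r := Nat.nth_count hr
    rw [hm] at h5
    have h7 : (r : ℝ) ≤ 2 * n := by exact_mod_cast hr2
    have h8 : (n : ℝ) ≤ X / 2 := by
      rw [hn]
      exact Nat.floor_le (by linarith)
    have h9 : (Nat.nth Nat.Prime (m + 1) : ℝ) ≤ r := by exact_mod_cast h5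
    linarith
  · have h5 : Nat.nth Nat.Prime m < x + 1 := by
      apply Nat.nth_lt_of_lt_count
      omega
    have h6 : x + 1 ≤ Nat.nth Nat.Prime (m + 1) := by
      rw [← hm]
      exact Nat.le_nth_count Nat.infinite_setOfPred_prime (x + 1)
    have h7 : (Nat.nth Nat.Prime (m + 1)).Prime := Nat.prime_nth_prime _
    obtain ⟨k, hk⟩ : ∃ k, Nat.nth Nat.Prime (m + 1) = x + k := ⟨_, (Nat.add_sub_of_le (by omega)).symm⟩
    have hk1 : 1 ≤ k := by omega
    have h8 : c * ff (X / 2) < k := by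
      by_contra h
      push Not at h
      exact hx3 k hk1 h (hk ▸ h7)
    have h9 : (Nat.nth Nat.Prime (m + 1) : ℝ) = x + k := by
      rw [hk]
      push_cast
      ring
    have h10 : (Nat.nth Nat.Prime m : ℝ) ≤ x := by
      have : Nat.nth Nat.Prime m ≤ x := by omega
      exact_mod_cast this
    have h11 := hX₂ X h2
    have h12 : c / 16 * ff X ≤ c * ff (X / 2) := by
      calc c / 16 * ff X = c * (ff X / 16) := by ring
        _ ≤ c * ff (X / 2) := by gcongr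
    linarith

end LG

end Pool.Agent.U602.SQ.G
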