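import Pool.Agent.U602.SQ.L.Q1

set_option autoImplicit false

/-! Copy of `Pool/Agent/H426R3/SQ/Lin1.lean` (helper426 and others), so that it can be imported together with
`Pool/Agent/H256R2/SC/Par.lean`. -/

/-! # The arithmetic core for a number and its square (helper426) -/

namespace Pool.Agent.U602.SQ.L

open Pool.Agent.H426R3.SQ Pool.Agent.U602.SQ.G

open Finset Pool.Agent.H256R2.SC

open scoped Classical

/-- the surviving shifts of `n` -/
noncomputable def GLin (y : ℝ) (T : ℕ) : Finset ℤ :=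
  (Icc (-(T : ℤ)) (T : ℤ)).filter (fun u => u ≠ 0 ∧
    (∀ p : ℕ, p.Prime → zR y < (p : ℝ) → (p : ℝ) ≤ y → ¬ (p : ℤ) ∣ u) ∧
    (∀ p : ℕ, p.Prime → (p : ℝ) ≤ zR y → ¬ (p : ℤ) ∣ u + 1))

/-- all colours: `(t, w)` stands for the form `(a + t) ^ 2 + w` -/
noncomputable def GP (y : ℝ) (T : ℕ) (Bad : Finset ℤ) : Finset (ℤ × ℤ) :=
  (GG y T Bad).image (fun v => ((0 : ℤ), v)) ∪ (GLin y T).image (fun u => (u, (0 : ℤ)))

theorem rho_zero {p : ℕ} (hp : p.Prime) : rho 0 p = 1 := by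
  unfold rho
  rw [Finset.card_eq_one]
  refine ⟨0, ?_⟩
  ext x
  rw [mem_filter, mem_range, mem_singleton]
  constructor
  · rintro ⟨h1, h2⟩
    rw [add_zero] at h2
    have h3 : p ∣ x ^ 2 := by exact_mod_cast h2
    have h4 := hp.dvd_of_dvd_pow h3
    exact Nat.eq_zero_of_dvd_of_lt h4 h1
  · rintro rfl
    exact ⟨hp.pos, by simp⟩

/-- different forms are never divisible by the same large prime at the same place -/
theorem form_unique {p : ℕ} {a s t u v T : ℤ} (hs : |s| ≤ T) (ht : |t| ≤ T) (hu : |u| ≤ T)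
    (hv : |v| ≤ T) (husq : u = 0 ∨ ¬ IsSquare (-u)) (hvsq : v = 0 ∨ ¬ IsSquare (-v))
    (hst : s = 0 ∨ u = 0) (hst' : t = 0 ∨ v = 0)
    (hp : 9 * T ^ 2 < (p : ℤ)) (hpp : p.Prime) (h1 : (p : ℤ) ∣ (a + s) ^ 2 + u)
    (h2 : (p : ℤ) ∣ (a + t) ^ 2 + v) (hT1 : 1 ≤ T) :
    s = t ∧ u = v := by
  have hpr := Nat.prime_iff_prime_int.mp hpp
  -- both linear
  have lin : ∀ x : ℤ, (p : ℤ) ∣ x ^ 2 + 0 → (p : ℤ) ∣ x := by
    intro x hx
    rw [add_zero] at hx
    exact hpr.dvd_of_dvd_pow hx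
  have small : ∀ x : ℤ, |x| ≤ 4 * T ^ 2 → (p : ℤ) ∣ x → x = 0 := by
    intro x hx hd
    apply Int.eq_zero_of_abs_lt_dvd hd
    nlinarith
  have hTT : T ≤ T ^ 2 := by nlinarith
  have mixed : ∀ x w : ℤ, |x| ≤ T → |w| ≤ T → (w = 0 ∨ ¬ IsSquare (-w)) →
      (p : ℤ) ∣ a + x → (p : ℤ) ∣ a ^ 2 + w → w = 0 := by
    intro x w hx hw hsq hd1 hd2
    have h3 : (p : ℤ) ∣ x ^ 2 + w := by
      have h4 := dvd_sub hd2 (Dvd.dvd.mul_right hd1 (a - x))
      have e : a ^ 2 + w - (a + x) * (a - x) = x ^ 2 + w := by ring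
      rwa [e] at h4
    have h5 : x ^ 2 + w = 0 := by
      apply small _ _ h3
      have h6 : |x ^ 2| ≤ T ^ 2 := by
        rw [abs_pow]
        exact pow_le_pow_left₀ (abs_nonneg x) hx 2
      have h7 := abs_add_le (x ^ 2) w
      nlinarith
    rcases hsq with h | h
    · exact h
    · exfalso
      apply h
      exact ⟨x, by linarith⟩
  have hdiff : ∀ x w : ℤ, |x| ≤ T → |w| ≤ T → (p : ℤ) ∣ x - w → x = w := by
    intro x w hx hw hd
    have h3 := small (x - w) (by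
      have := abs_sub x w
      nlinarith) hd
    linarith
  by_cases hu0 : u = 0
  · by_cases hv0 : v = 0
    · subst hu0 hv0
      have h3 := lin _ h1
      have h4 := lin _ h2
      refine ⟨?_, rfl⟩
      apply hdiff s t hs ht
      have h5 := dvd_sub h3 h4
      have e : a + s - (a + t) = s - t := by ring
      rwa [e] at h5
    · exfalso
      have ht0 : t = 0 := hst'.resolve_right hv0
      subst hu0 ht0
      apply hv0
      refine mixed s v hs hv hvsq (lin _ h1) ?_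
      simpa using h2
  · have hs0 : s = 0 := hst.resolve_right hu0
    by_cases hv0 : v = 0
    · exfalso
      subst hv0 hs0
      apply hu0
      refine mixed t u ht hu husq (lin _ h2) ?_
      simpa using h1
    · have ht0 : t = 0 := hst'.resolve_right hv0
      subst hs0 ht0
      refine ⟨rfl, hdiff u v hu hv ?_⟩
      have h5 := dvd_sub h1 h2
      have e : (a + 0) ^ 2 + u - ((a + 0) ^ 2 + v) = u - v := by ring
      rwa [e] at h5

/-- the arithmetic core -/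
theorem lin_arith {c₂ c Y : ℝ} (hcov : CovAt c₂ c Y) (hY : 1 ≤ Y) {y : ℝ} (hy0 : 0 ≤ y)
    (hzy : zR y ≤ y) (hyL : y ≤ (Real.log Y) ^ 3) (hL3 : Real.exp 3 ≤ (Real.log Y) ^ 3)
    {T : ℕ} (hT1 : 1 ≤ T) (hT : 9 * (T : ℝ) ^ 2 < (Real.log Y) ^ 3)
    (Bad : Finset ℤ) (pu : ℤ → ℕ) (P9 R : ℝ) (hP9 : 1 ≤ P9)
    (hpu : ∀ u ∈ Bad, (pu u).Prime ∧ y < (pu u : ℝ) ∧ (pu u : ℝ) ≤ P9 ∧
      ∃ t : ℤ, (pu u : ℤ) ∣ t ^ 2 + u)
    (hinj : Set.InjOn pu (Bad : Set ℤ))
    (hrough : ∀ u : ℤ, u ≠ 0 → ¬ IsSquare (-u) → |u| ≤ (T : ℤ) → u ∉ Bad →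
      ∀ z x : ℝ, (Real.log Y) ^ 3 ≤ x →
      x ≤ z → z ≤ Real.exp ((Real.log Y) ^ (1 / 20 : ℝ)) →
      c₂ * Real.log x / Real.log (Real.log Y) - 1 ≤
        ∑ s ∈ ((SP ((Real.log Y) ^ 3) z (Bad.image pu)).powerset.filter
            (fun s : Finset ℕ => s.Nonempty ∧ ∏ p ∈ s, (p : ℝ) ≤ x)), ∏ p ∈ s, gk u p)
    (hrough0 : ∀ z x : ℝ, (Real.log Y) ^ 3 ≤ x →
      x ≤ z → z ≤ Real.exp ((Real.log Y) ^ (1 / 20 : ℝ)) →
      c₂ * Real.log x / Real.log (Real.log Y) - 1 ≤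
        ∑ s ∈ ((SP ((Real.log Y) ^ 3) z (Bad.image pu)).powerset.filter
            (fun s : Finset ℕ => s.Nonempty ∧ ∏ p ∈ s, (p : ℝ) ≤ x)), ∏ p ∈ s, gk 0 p)
    (hcard : ((GP y T Bad).card : ℝ) ≤ c * Real.log Y)
    (hmed : ∃ p : ℕ, p.Prime ∧ zR y < (p : ℝ) ∧ (p : ℝ) ≤ y)
    (M : ℕ) (hW : 4 * ((primorial ⌊y⌋₊ : ℝ) * P9 ^ Bad.card) ≤ Y ^ (1 / 2 : ℝ))
    (hR1 : y ≤ R) (hR2 : P9 ≤ R) (hR3 : Real.exp ((Real.log Y) ^ (1 / 20 : ℝ)) ≤ R)
    (hR4 : R + T < Y ^ 2) (hR6 : R + T ≤ M) (hR5 : (T : ℝ) + 2 ≤ Y) (hM : Y ≤ (M : ℝ)) :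
    ∃ m : ℕ, M < m ∧ (m : ℝ) ≤ M + Y ∧
      (∀ k : ℕ, |(k : ℤ) - (m : ℤ)| ≤ (T : ℤ) → ¬ k.Prime) ∧
      ∀ k : ℕ, |(k : ℤ) - (m : ℤ) ^ 2| ≤ (T : ℤ) → ¬ k.Prime := by
  have hY0 : 0 < Y := by linarith
  set L : ℝ := Real.log Y with hL
  have hL0 : 0 ≤ L := Real.log_nonneg hY
  have hYr : ∀ s : ℝ, Y ^ s = Real.exp (s * L) := by
    intro s
    rw [Real.rpow_def_of_pos hY0, mul_comm]
  -- the set of primes
  set S₁ : Finset ℕ := (range (⌊y⌋₊ + 1)).filter Nat.Prime with hS₁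
  set B : Finset ℕ := Bad.image pu with hB
  have hS₁mem : ∀ p : ℕ, p ∈ S₁ ↔ p.Prime ∧ (p : ℝ) ≤ y := by
    intro p
    rw [hS₁, mem_filter, mem_range, Nat.lt_succ_iff, Nat.le_floor_iff hy0]
    exact and_comm
  have hBmem : ∀ p ∈ B, p.Prime ∧ y < (p : ℝ) ∧ (p : ℝ) ≤ P9 := by
    intro p hp
    obtain ⟨u, hu, rfl⟩ := mem_image.mp hp
    exact ⟨(hpu u hu).1, (hpu u hu).2.1, (hpu u hu).2.2.1⟩
  have hdisj : Disjoint S₁ B := by
    rw [Finset.disjoint_left]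
    intro p h1 h2
    have h3 := ((hS₁mem p).mp h1).2
    have h4 := (hBmem p h2).2.1
    linarith
  set S : Finset ℕ := S₁ ∪ B with hS
  have hSp : ∀ p ∈ S, p.Prime := by
    intro p hp
    rcases mem_union.mp hp with h | h
    · exact ((hS₁mem p).mp h).1
    · exact (hBmem p h).1
  set W : ℕ := ∏ p ∈ S, p with hWdef
  have hWeq : W = primorial ⌊y⌋₊ * ∏ p ∈ B, p := by
    rw [hWdef, hS, prod_union hdisj]
    rfl
  have hWpos : 1 ≤ W := Nat.one_le_iff_ne_zero.mpr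
    (Finset.prod_ne_zero_iff.mpr fun p hp => (hSp p hp).ne_zero)
  have hWle : (W : ℝ) ≤ (primorial ⌊y⌋₊ : ℝ) * P9 ^ Bad.card := by
    rw [hWeq]
    push_cast
    apply mul_le_mul_of_nonneg_left _ (Nat.cast_nonneg _)
    calc ∏ p ∈ B, (p : ℝ) ≤ ∏ p ∈ B, P9 :=
          prod_le_prod (fun _ _ => Nat.cast_nonneg _) fun p hp => (hBmem p hp).2.2
      _ = P9 ^ B.card := by rw [prod_const]
      _ ≤ P9 ^ Bad.card := pow_le_pow_right₀ hP9 (by rw [hB]; exact card_image_le)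
  have hWr : (0 : ℝ) < W := by exact_mod_cast hWpos
  -- roots for the bad shifts
  have hroot : ∀ p : ℕ, ∃ t : ℤ, ∀ u ∈ Bad, pu u = p → (p : ℤ) ∣ t ^ 2 + u := by
    intro p
    by_cases h : ∃ u ∈ Bad, pu u = p
    · obtain ⟨u, hu, hup⟩ := h
      obtain ⟨t, ht⟩ := (hpu u hu).2.2.2
      refine ⟨t, fun v hv hvp => ?_⟩
      have : v = u := hinj hv hu (hvp.trans hup.symm)
      rw [this, ← hup]
      exact ht
    · exact ⟨0, fun u hu hup => absurd ⟨u, hu, hup⟩ h⟩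
  choose tt htt using hroot
  obtain ⟨r, hr⟩ := crt_int S (fun p => (p : ℤ)) (by
      intro i hi j hj hij
      exact Nat.isCoprime_iff_coprime.mpr ((Nat.coprime_primes (hSp i hi) (hSp j hj)).mpr hij))
    (fun p => if (p : ℝ) ≤ zR y then 1 else if (p : ℝ) ≤ y then 0 else tt p)
  set 𝒜 : Finset ℤ := (Ioc (M : ℤ) ((M : ℤ) + ⌊Y⌋₊)).filter (fun a => (W : ℤ) ∣ a - r) with h𝒜
  have hfl : Y / 2 ≤ (⌊Y⌋₊ : ℝ) := by
    have h1 := Nat.lt_floor_add_one Y
    have h2 : (1 : ℝ) ≤ (⌊Y⌋₊ : ℝ) := by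
      have : 1 ≤ ⌊Y⌋₊ := Nat.le_floor (by simpa using hY)
      exact_mod_cast this
    linarith
  set N : ℝ := (⌊Y⌋₊ : ℝ) / W with hNdef
  have hN : Y ^ (1 / 2 : ℝ) ≤ N := by
    rw [hNdef, le_div_iff₀ hWr]
    have h1 : (Y ^ (1 / 2 : ℝ)) * (Y ^ (1 / 2 : ℝ)) = Y := by
      rw [← Real.rpow_add hY0]; norm_num
    have h2 : 0 < Y ^ (1 / 2 : ℝ) := Real.rpow_pos_of_pos hY0 _
    have h3 : (W : ℝ) ≤ Y ^ (1 / 2 : ℝ) / 4 := by linarith
    calc Y ^ (1 / 2 : ℝ) * W ≤ Y ^ (1 / 2 : ℝ) * (Y ^ (1 / 2 : ℝ) / 4) :=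
          mul_le_mul_of_nonneg_left h3 h2.le
      _ = Y / 4 := by rw [← mul_div_assoc, h1]
      _ ≤ _ := by linarith
  -- the counts
  have hcount : ∀ (T' : Finset ℕ) (t s : ℕ → ℤ), (∀ p ∈ T', p.Prime ∧ L ^ 3 < p ∧ p ∉ B) →
      |((𝒜.filter (fun a => ∀ p ∈ T', (p : ℤ) ∣ (a + t p) ^ 2 + s p)).card : ℝ) -
        N * ∏ p ∈ T', gk (s p) p| ≤ 2 ^ T'.card := by
    intro T' t s hT'
    have hnd : ∀ p ∈ T', p.Prime ∧ ¬ p ∣ W := by
      intro p hp
      obtain ⟨h1, h2, h3⟩ := hT' p hp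
      refine ⟨h1, fun h4 => ?_⟩
      rw [hWdef, Prime.dvd_finsetProd_iff h1.prime] at h4
      obtain ⟨q, hq, hpq⟩ := h4
      have h5 : p = q := (Nat.prime_dvd_prime_iff_eq h1 (hSp q hq)).mp hpq
      rw [← h5] at hq
      rcases mem_union.mp hq with h | h
      · have := ((hS₁mem p).mp h).2
        linarith
      · exact h3 h
    have h1 := count_sq_shift (M : ℤ) ((M : ℤ) + ⌊Y⌋₊) (by omega) W hWpos r T' hnd t s
    have h2 : (𝒜.filter (fun a => ∀ p ∈ T', (p : ℤ) ∣ (a + t p) ^ 2 + s p)) =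
        (Ioc (M : ℤ) ((M : ℤ) + ⌊Y⌋₊)).filter (fun a : ℤ => (W : ℤ) ∣ a - r ∧
        ∀ p ∈ T', (p : ℤ) ∣ (a + t p) ^ 2 + s p) := by
      rw [h𝒜, filter_filter]
    have h3 : ∏ p ∈ T', gk (s p) p = ∏ p ∈ T', (rho (s p) p : ℝ) / (p : ℝ) := by
      refine prod_congr rfl fun p hp => ?_
      unfold gk
      rw [if_pos (hT' p hp).1]
    have h4 : (((M : ℤ) + ⌊Y⌋₊ : ℤ) : ℝ) - ((M : ℤ) : ℝ) = (⌊Y⌋₊ : ℝ) := by
      push_cast
      ring
    rw [h4] at h1
    rw [h2, h3, hNdef]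
    have hfin : ∏ p ∈ T', (rho (s p) p : ℝ) ≤ 2 ^ T'.card := by
      calc ∏ p ∈ T', (rho (s p) p : ℝ) ≤ ∏ p ∈ T', (2 : ℝ) :=
            prod_le_prod (fun _ _ => Nat.cast_nonneg _) fun p hp => by
              exact_mod_cast rho_le_two (s p) p (hT' p hp).1
        _ = 2 ^ T'.card := by rw [prod_const]
    refine le_trans (le_of_eq ?_) (h1.trans hfin)
    congr!
  have hN2 : 4 ≤ N := by
    refine le_trans ?_ hN
    refine le_trans ?_ hW
    have h1 : (1 : ℝ) ≤ (primorial ⌊y⌋₊ : ℝ) := by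
      exact_mod_cast Nat.one_le_iff_ne_zero.mpr (primorial_pos _).ne'
    have h2 : (1 : ℝ) ≤ P9 ^ Bad.card := one_le_pow₀ hP9
    nlinarith
  -- the covering step
  have key : ∃ a ∈ 𝒜, ∀ u ∈ GP y T Bad, ∃ p : ℕ, p.Prime ∧
      (p : ℝ) ≤ Real.exp (L ^ (1 / 20 : ℝ)) ∧ (p : ℤ) ∣ (a + u.1) ^ 2 + u.2 := by
    rcases (GP y T Bad).eq_empty_or_nonempty with hE | hE
    · have h1 := hcount ∅ (fun _ => 0) (fun _ => 0) (by simp)
      simp only [Finset.notMem_empty, IsEmpty.forall_iff, implies_true, filter_true, prod_empty,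
        mul_one, card_empty, pow_zero] at h1
      have h2 : (0 : ℝ) < (𝒜.card : ℝ) := by
        have := (abs_le.mp h1).1
        linarith
      obtain ⟨a, ha⟩ := Finset.card_pos.mp (by exact_mod_cast h2)
      exact ⟨a, ha, fun u hu => by rw [hE] at hu; exact absurd hu (Finset.notMem_empty u)⟩
    · have hne : Nonempty (GP y T Bad) := ⟨⟨hE.choose, hE.choose_spec⟩⟩
      have hG : ∀ u ∈ GP y T Bad, |u.1| ≤ (T : ℤ) ∧ |u.2| ≤ (T : ℤ) ∧
          (u.1 = 0 ∨ u.2 = 0) ∧ (u.2 = 0 ∨ ¬ IsSquare (-u.2)) ∧ (u.2 = 0 ∨ u.2 ∉ Bad) := by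
        intro u hu
        unfold GP at hu
        rcases mem_union.mp hu with h | h
        · obtain ⟨v, hv, rfl⟩ := mem_image.mp h
          unfold GG at hv
          rw [mem_filter, mem_Icc] at hv
          refine ⟨by simp, abs_le.mpr hv.1, Or.inl rfl, Or.inr hv.2.2.1, Or.inr hv.2.2.2.1⟩
        · obtain ⟨v, hv, rfl⟩ := mem_image.mp h
          unfold GLin at hv
          rw [mem_filter, mem_Icc] at hv
          exact ⟨abs_le.mpr hv.1, by simp, Or.inr rfl, Or.inl rfl, Or.inl rfl⟩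
      obtain ⟨a, ha, hcv⟩ := hcov B (GP y T Bad) (by simpa using hcard)
        (fun p a k => (p : ℤ) ∣ (a + (k : ℤ × ℤ).1) ^ 2 + (k : ℤ × ℤ).2)
        (fun p k => gk (k : ℤ × ℤ).2 p)
        (fun p k => gk_bound _ _)
        (by
          intro p hp hpL a k l h1 h2
          obtain ⟨k1, k2, k3, k4, _⟩ := hG k k.2
          obtain ⟨l1, l2, l3, l4, _⟩ := hG l l.2
          obtain ⟨e1, e2⟩ := form_unique (p := p) (a := a) k1 l1 k2 l2 k4 l4 k3 l3
            (by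
              have : 9 * (T : ℝ) ^ 2 < (p : ℝ) := hT.trans hpL
              exact_mod_cast this) hp h1 h2 (by exact_mod_cast hT1)
          exact Subtype.ext (Prod.ext e1 e2))
        (by
          intro k z x h1 h2 h3
          obtain ⟨_, k2, _, k4, k5⟩ := hG k k.2
          by_cases h0 : (k : ℤ × ℤ).2 = 0
          · simp only [h0]
            exact hrough0 z x h1 h2 h3
          · exact hrough _ h0 (k4.resolve_left h0) k2 (k5.resolve_left h0) z x h1 h2 h3)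
        𝒜 N (Y ^ (1 / 10 : ℝ)) hN (Real.rpow_nonneg hY0.le _) le_rfl
        (by
          intro T' s hprod hT'
          have h1 := hcount T' (fun p => ((s p : GP y T Bad) : ℤ × ℤ).1)
            (fun p => ((s p : GP y T Bad) : ℤ × ℤ).2) hT'
          refine h1.trans ?_
          rw [hYr]
          have h2 := two_pow_le hL0 (T := T') (fun p hp => by
            have := (hT' p hp).2.1
            linarith) (by
              rw [hYr] at hprod
              refine hprod.trans (Real.exp_le_exp.mpr ?_)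
              linarith)
          refine h2.trans (Real.exp_le_exp.mpr ?_)
          linarith)
      refine ⟨a, ha, fun u hu => ?_⟩
      obtain ⟨p, hp1, _, hp3, _, hp5⟩ := hcv ⟨u, hu⟩
      exact ⟨p, hp1, hp3, hp5⟩
  obtain ⟨a, ha, hcv⟩ := key
  rw [h𝒜, mem_filter, mem_Ioc] at ha
  have ha0 : 0 < a := lt_of_le_of_lt (by positivity) ha.1.1
  obtain ⟨m, hm⟩ := Int.eq_ofNat_of_zero_le ha0.le
  have hmM : M < m := by
    have : (M : ℤ) < (m : ℤ) := by rw [← hm]; exact ha.1.1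
    exact_mod_cast this
  have hmY : (m : ℝ) ≤ M + Y := by
    have h1 : (m : ℤ) ≤ (M : ℤ) + ⌊Y⌋₊ := by rw [← hm]; exact ha.1.2
    have h2 : (m : ℝ) ≤ (M : ℝ) + (⌊Y⌋₊ : ℝ) := by exact_mod_cast h1
    have h3 := Nat.floor_le hY0.le
    linarith
  -- divisibility by the primes of S
  have hdiv : ∀ p ∈ S, (p : ℤ) ∣ a - (if (p : ℝ) ≤ zR y then 1 else if (p : ℝ) ≤ y then 0
      else tt p) := by
    intro p hp
    have h1 : (p : ℤ) ∣ a - r := by
      refine dvd_trans ?_ ha.2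
      exact_mod_cast Finset.dvd_prod_of_mem (fun p => p) hp
    have h2 := dvd_add h1 (hr p hp)
    have e : a - r + (r - (if (p : ℝ) ≤ zR y then 1 else if (p : ℝ) ≤ y then 0
      else tt p)) = a - (if (p : ℝ) ≤ zR y then 1 else if (p : ℝ) ≤ y then 0
      else tt p) := by ring
    rwa [e] at h2
  have hmMr : (M : ℝ) + 1 ≤ (m : ℝ) := by exact_mod_cast hmM
  refine ⟨m, hmM, hmY, fun k hk hkp => ?_, fun k hk hkp => ?_⟩
  · -- the numbers near `m`
    have hkR : R < (k : ℝ) := by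
      have h1 := (abs_le.mp hk).1
      have h2 : (m : ℝ) - (T : ℝ) ≤ (k : ℝ) := by
        have : (m : ℤ) - (T : ℤ) ≤ (k : ℤ) := by linarith
        exact_mod_cast this
      linarith
    have hnd : ∀ p : ℕ, p.Prime → (p : ℝ) ≤ R → ¬ (p : ℤ) ∣ (k : ℤ) := by
      intro p hp hpR h
      have h1 : p ∣ k := by exact_mod_cast h
      have h2 := (Nat.prime_dvd_prime_iff_eq hp hkp).mp h1
      rw [h2] at hpR
      linarith
    set u : ℤ := (k : ℤ) - (m : ℤ) with hu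
    have hku : (k : ℤ) = a + u := by rw [hu, hm]; ring
    by_cases hu0 : u = 0
    · obtain ⟨p, hp, hp1, hp2⟩ := hmed
      have hpS : p ∈ S := mem_union_left _ ((hS₁mem p).mpr ⟨hp, hp2⟩)
      have h4 := hdiv p hpS
      rw [if_neg (not_le.mpr hp1), if_pos hp2, sub_zero] at h4
      apply hnd p hp (hp2.trans hR1)
      rw [hku, hu0, add_zero]
      exact h4
    by_cases hG : u ∈ GLin y T
    · obtain ⟨p, hp1, hp2, hp3⟩ := hcv (u, 0) (by
        unfold GP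
        exact mem_union_right _ (mem_image.mpr ⟨u, hG, rfl⟩))
      simp only [add_zero] at hp3
      apply hnd p hp1 (hp2.trans hR3)
      rw [hku]
      exact (Nat.prime_iff_prime_int.mp hp1).dvd_of_dvd_pow hp3
    · apply hG
      unfold GLin
      rw [mem_filter, mem_Icc]
      refine ⟨abs_le.mp hk, hu0, ?_, ?_⟩
      · intro p hp hp1 hp2 hpu'
        have hpS : p ∈ S := mem_union_left _ ((hS₁mem p).mpr ⟨hp, hp2⟩)
        have h4 := hdiv p hpS
        rw [if_neg (not_le.mpr hp1), if_pos hp2, sub_zero] at h4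
        apply hnd p hp (hp2.trans hR1)
        rw [hku]
        exact dvd_add h4 hpu'
      · intro p hp hp1 hpu'
        have hp2 : (p : ℝ) ≤ y := hp1.trans hzy
        have hpS : p ∈ S := mem_union_left _ ((hS₁mem p).mpr ⟨hp, hp2⟩)
        have h4 := hdiv p hpS
        rw [if_pos hp1] at h4
        apply hnd p hp (hp2.trans hR1)
        have h6 : (k : ℤ) = (a - 1) + (u + 1) := by rw [hku]; ring
        rw [h6]
        exact dvd_add h4 hpu'
  have hmr : Y < (m : ℝ) := by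
    have : (M : ℝ) < (m : ℝ) := by exact_mod_cast hmM
    linarith
  have hkR : R < (k : ℝ) := by
    have h1 := (abs_le.mp hk).1
    have h2 : (m : ℝ) ^ 2 - (T : ℝ) ≤ (k : ℝ) := by
      have : (m : ℤ) ^ 2 - (T : ℤ) ≤ (k : ℤ) := by linarith
      exact_mod_cast this
    nlinarith
  have hnd : ∀ p : ℕ, p.Prime → (p : ℝ) ≤ R → ¬ (p : ℤ) ∣ (k : ℤ) := by
    intro p hp hpR h
    have h1 : p ∣ k := by exact_mod_cast h
    have h2 := (Nat.prime_dvd_prime_iff_eq hp hkp).mp h1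
    rw [h2] at hpR
    linarith
  set u : ℤ := (k : ℤ) - (m : ℤ) ^ 2 with hu
  have hku : (k : ℤ) = a ^ 2 + u := by rw [hu, hm]; ring
  have hmT : (T : ℤ) + 2 ≤ (m : ℤ) := by
    have : (T : ℝ) + 2 ≤ (m : ℝ) := by linarith
    exact_mod_cast this
  -- trivial factorisations
  by_cases hsq : IsSquare (-u)
  · obtain ⟨v, hv⟩ := hsq
    have hv2 : v * v ≤ T := by
      have := (abs_le.mp hk).1
      linarith
    refine not_prime_of_square_diff (k := k) (a := a) (v := |v|) ?_ (abs_nonneg v) ?_ hkp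
    · rw [sq_abs, hku]
      have : v ^ 2 = v * v := by ring
      rw [this, ← hv]
      ring
    · rw [hm]
      have h1 : |v| ≤ v * v := by
        rcases eq_or_ne v 0 with h | h
        · rw [h]; simp
        · have h2 : 1 ≤ |v| := Int.one_le_abs h
          have h3 : |v| * |v| = v * v := abs_mul_abs_self v
          nlinarith
      have h2 : ((m : ℕ) : ℤ) = (m : ℤ) := rfl
      change |v| + 2 ≤ (m : ℤ)
      linarith
  have hu0 : u ≠ 0 := by
    intro h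
    apply hsq
    rw [h]
    exact ⟨0, by norm_num⟩
  by_cases hbad : u ∈ Bad
  · obtain ⟨h1, h2, h3, _⟩ := hpu u hbad
    have hpB : pu u ∈ B := mem_image.mpr ⟨u, hbad, rfl⟩
    have hpS : pu u ∈ S := mem_union_right _ hpB
    have h4 := hdiv (pu u) hpS
    rw [if_neg (not_le.mpr (lt_of_le_of_lt hzy h2)), if_neg (not_le.mpr h2)] at h4
    have h5 := htt (pu u) u hbad rfl
    apply hnd (pu u) h1 (h3.trans hR2)
    have h6 : (k : ℤ) = (a - tt (pu u)) * (a + tt (pu u)) + (tt (pu u) ^ 2 + u) := by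
      rw [hku]; ring
    rw [h6]
    exact dvd_add (Dvd.dvd.mul_right h4 _) h5
  by_cases hG : u ∈ GG y T Bad
  · obtain ⟨p, hp1, hp2, hp3⟩ := hcv (0, u) (by
      unfold GP
      exact mem_union_left _ (mem_image.mpr ⟨u, hG, rfl⟩))
    simp only [add_zero] at hp3
    apply hnd p hp1 (hp2.trans hR3)
    rw [hku]
    exact hp3
  · apply hG
    unfold GG
    rw [mem_filter, mem_Icc]
    refine ⟨abs_le.mp hk, hu0, hsq, hbad, ?_, ?_⟩
    · intro p hp hp1 hp2 hpu'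
      have hpS : p ∈ S := mem_union_left _ ((hS₁mem p).mpr ⟨hp, hp2⟩)
      have h4 := hdiv p hpS
      rw [if_neg (not_le.mpr hp1), if_pos hp2, sub_zero] at h4
      apply hnd p hp (hp2.trans hR1)
      rw [hku]
      exact dvd_add (Dvd.dvd.pow h4 (by norm_num)) hpu'
    · intro p hp hp1 hpu'
      have hp2 : (p : ℝ) ≤ y := hp1.trans hzy
      have hpS : p ∈ S := mem_union_left _ ((hS₁mem p).mpr ⟨hp, hp2⟩)
      have h4 := hdiv p hpS
      rw [if_pos hp1] at h4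
      apply hnd p hp (hp2.trans hR1)
      have h6 : (k : ℤ) = (a - 1) * (a + 1) + (u + 1) := by rw [hku]; ring
      rw [h6]
      exact dvd_add (Dvd.dvd.mul_right h4 _) hpu'

end Pool.Agent.U602.SQ.L
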