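import Pool.Agent.U602.SQ.L.M1b

set_option autoImplicit false

/-! Copy of `Pool/Agent/H426R3/SQ/M1p.lean` (helper426 and others), so that it can be imported together with
`Pool/Agent/H256R2/SC/Par.lean`. -/

/-! # Two small lemmas (helper426) -/

namespace Pool.Agent.U602.SQ.L

open Pool.Agent.H426R3.SQ Pool.Agent.U602.SQ.G

open Finset Pool.Agent.H256R2.SC

open scoped Classical

theorem primorial_le_exp {y : ℝ} (hy : 0 ≤ y) : (primorial ⌊y⌋₊ : ℝ) ≤ Real.exp (2 * y) := by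
  have h1 : (primorial ⌊y⌋₊ : ℝ) ≤ 4 ^ ⌊y⌋₊ := by exact_mod_cast primorial_le_four_pow _
  refine h1.trans ?_
  have h2 : (4 : ℝ) ≤ Real.exp 2 := by
    have := Real.add_one_le_exp (1 : ℝ)
    calc (4 : ℝ) = 2 * 2 := by norm_num
      _ ≤ Real.exp 1 * Real.exp 1 := by gcongr <;> linarith
      _ = Real.exp 2 := by rw [← Real.exp_add]; norm_num
  calc (4 : ℝ) ^ ⌊y⌋₊ ≤ (Real.exp 2) ^ ⌊y⌋₊ := by gcongr
    _ = Real.exp (⌊y⌋₊ * 2) := by rw [← Real.exp_nat_mul]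
    _ ≤ Real.exp (2 * y) := by
      apply Real.exp_le_exp.2
      have := Nat.floor_le hy
      linarith

/-- removing the exceptional primes -/
theorem sum_remove (u : ℤ) {Y3 w : ℝ} (hY3 : 0 < Y3) (B : Finset ℕ) (hB : 2 * (B.card : ℝ) ≤ Y3) :
    ∑ p ∈ SP Y3 w ∅, (rho u p : ℝ) / (p : ℝ) ≤ (∑ p ∈ SP Y3 w B, gk u p) + 1 := by
  have h1 : SP Y3 w ∅ ⊆ SP Y3 w B ∪ (SP Y3 w ∅).filter (fun p => p ∈ B) := by
    intro p hp
    by_cases h : p ∈ B
    · exact mem_union_right _ (mem_filter.mpr ⟨hp, h⟩)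
    · apply mem_union_left
      unfold SP at hp ⊢
      rw [mem_filter] at hp ⊢
      exact ⟨hp.1, hp.2.1, hp.2.2.1, h⟩
  have hmem : ∀ p ∈ SP Y3 w ∅, p.Prime ∧ Y3 < (p : ℝ) := by
    intro p hp
    unfold SP at hp
    rw [mem_filter] at hp
    exact ⟨hp.2.1, hp.2.2.1⟩
  have h2 : ∑ p ∈ SP Y3 w ∅, (rho u p : ℝ) / (p : ℝ) = ∑ p ∈ SP Y3 w ∅, gk u p := by
    refine sum_congr rfl fun p hp => ?_
    unfold gk
    rw [if_pos (hmem p hp).1]
  rw [h2]
  have h3 : ∑ p ∈ SP Y3 w ∅, gk u p ≤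
      ∑ p ∈ SP Y3 w B, gk u p + ∑ p ∈ (SP Y3 w ∅).filter (fun p => p ∈ B), gk u p := by
    refine (sum_le_sum_of_subset_of_nonneg h1 fun p _ _ => (gk_bound u p).1).trans ?_
    have := sum_union_inter (s₁ := SP Y3 w B) (s₂ := (SP Y3 w ∅).filter (fun p => p ∈ B))
      (f := fun p => gk u p)
    have h4 : 0 ≤ ∑ p ∈ SP Y3 w B ∩ (SP Y3 w ∅).filter (fun p => p ∈ B), gk u p :=
      sum_nonneg fun p _ => (gk_bound u p).1
    linarith
  have h4 : ∑ p ∈ (SP Y3 w ∅).filter (fun p => p ∈ B), gk u p ≤ 1 := by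
    calc ∑ p ∈ (SP Y3 w ∅).filter (fun p => p ∈ B), gk u p
        ≤ ∑ p ∈ (SP Y3 w ∅).filter (fun p => p ∈ B), 2 / Y3 := by
          refine sum_le_sum fun p hp => ?_
          have h5 := (hmem p (mem_filter.mp hp).1).2
          exact (gk_bound u p).2.trans (div_le_div_of_nonneg_left (by norm_num) hY3 h5.le)
      _ = (((SP Y3 w ∅).filter (fun p => p ∈ B)).card : ℝ) * (2 / Y3) := by
          rw [sum_const, nsmul_eq_mul]
      _ ≤ (B.card : ℝ) * (2 / Y3) := by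
          apply mul_le_mul_of_nonneg_right _ (by positivity)
          exact_mod_cast card_le_card fun p hp => (mem_filter.mp hp).2
      _ ≤ 1 := by
          rw [← mul_div_assoc, div_le_one hY3]
          linarith
  linarith

end Pool.Agent.U602.SQ.L
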