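import Pool.Agent.U602.SQ.L.Q2

set_option autoImplicit false

/-! Copy of `Pool/Agent/H426R3/SQ/Q3.lean` (helper426 and others), so that it can be imported together with
`Pool/Agent/H256R2/SC/Par.lean`. -/

/-! # Number of the surviving pairs, largeness conditions (helper426) -/

namespace Pool.Agent.U602.SQ.L

open Pool.Agent.H426R3.SQ Pool.Agent.U602.SQ.G

open Finset Filter Pool.Agent.H256R2.SC

open scoped Classical

/-- the survivors of the first two steps in `[1, T]`, with the second class given by `e` -/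
noncomputable def SV (y : ℝ) (T : ℕ) (e : ℤ) : Finset ℕ :=
  (Finset.Icc 1 T).filter (fun u : ℕ =>
      (∀ p : ℕ, p.Prime → zR y < (p : ℝ) → (p : ℝ) ≤ y → ¬ p ∣ u) ∧
      (∀ p : ℕ, p.Prime → (p : ℝ) ≤ zR y → ¬ (p : ℤ) ∣ (u : ℤ) + e))

theorem GQ_card (y : ℝ) (J Z : ℕ) (hJZ : J ^ 2 ≤ 4 * Z) (Bad : Finset ℤ) :
    ((GQ y J Z Bad).card : ℝ) ≤ ∑ j ∈ range J, (((SV y (2 * Z) ((j : ℤ) + 1)).card : ℝ) +
      ((SV y (2 * Z) (-((j : ℤ) + 1))).card : ℝ)) := by
  have hsub : GQ y J Z Bad ⊆ (range J).biUnion (fun j =>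
      (SV y (2 * Z) ((j : ℤ) + 1)).image (fun v : ℕ => ((j, (v : ℤ) - (qs j : ℤ)) : ℕ × ℤ)) ∪
      (SV y (2 * Z) (-((j : ℤ) + 1))).image
        (fun v : ℕ => ((j, -(v : ℤ) - (qs j : ℤ)) : ℕ × ℤ))) := by
    rintro ⟨j, u⟩ hu
    unfold GQ at hu
    rw [mem_filter, mem_product, mem_range, mem_Icc] at hu
    obtain ⟨⟨hj, h1, h2⟩, h4, h5, h6, h7⟩ := hu
    simp only at hj h1 h2 h4 h5 h6 h7
    have hj2 : (qs j : ℤ) ≤ Z := by
      have h8 : j ^ 2 ≤ 4 * Z := (Nat.pow_le_pow_left hj.le 2).trans hJZ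
      have h9 : qs j ≤ Z := by
        unfold qs
        omega
      exact_mod_cast h9
    have hj0 : (0 : ℤ) ≤ (qs j : ℤ) := by positivity
    have hne : (qs j : ℤ) + u ≠ 0 := by
      intro h
      apply h4
      refine ⟨(j : ℤ), ?_⟩
      unfold wq
      simp only
      have h8 := four_qs j
      linear_combination h8 + (-4 : ℤ) * h
    rw [mem_biUnion]
    refine ⟨j, mem_range.mpr hj, ?_⟩
    rcases lt_or_gt_of_ne hne with h | h
    · apply mem_union_right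
      obtain ⟨v, hv⟩ := Int.eq_ofNat_of_zero_le (show 0 ≤ -((qs j : ℤ) + u) by linarith)
      have hv' : u = -(v : ℤ) - (qs j : ℤ) := by linarith
      refine mem_image.mpr ⟨v, ?_, by rw [hv']⟩
      unfold SV
      rw [mem_filter, mem_Icc]
      refine ⟨⟨by omega, by omega⟩, fun p hp hp1 hp2 hd => h6 p hp hp1 hp2 ?_,
        fun p hp hp1 hd => h7 p hp hp1 ?_⟩
      · have e : (qs j : ℤ) + u = -(v : ℤ) := by rw [hv']; ring
        rw [e]
        exact (Int.dvd_neg).mpr (by exact_mod_cast hd)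
      · have e : 1 + (j : ℤ) + (qs j : ℤ) + u = -((v : ℤ) + (-((j : ℤ) + 1))) := by rw [hv']; ring
        rw [e]
        exact (Int.dvd_neg).mpr hd
    · apply mem_union_left
      obtain ⟨v, hv⟩ := Int.eq_ofNat_of_zero_le h.le
      have hv' : u = (v : ℤ) - (qs j : ℤ) := by linarith
      refine mem_image.mpr ⟨v, ?_, by rw [hv']⟩
      unfold SV
      rw [mem_filter, mem_Icc]
      refine ⟨⟨by omega, by omega⟩, fun p hp hp1 hp2 hd => h6 p hp hp1 hp2 ?_,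
        fun p hp hp1 hd => h7 p hp hp1 ?_⟩
      · have e : (qs j : ℤ) + u = (v : ℤ) := by rw [hv']; ring
        rw [e]
        exact_mod_cast hd
      · have e : 1 + (j : ℤ) + (qs j : ℤ) + u = (v : ℤ) + ((j : ℤ) + 1) := by rw [hv']; ring
        rw [e]
        exact hd
  have h1 : (GQ y J Z Bad).card ≤ ∑ j ∈ range J, ((SV y (2 * Z) ((j : ℤ) + 1)).card +
      (SV y (2 * Z) (-((j : ℤ) + 1))).card) := by
    refine (card_le_card hsub).trans (card_biUnion_le.trans (sum_le_sum fun j _ => ?_))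
    exact (card_union_le _ _).trans (Nat.add_le_add card_image_le card_image_le)
  exact_mod_cast h1

/-- largeness conditions -/
theorem ev_L2 (c' : ℝ) (M : ℝ) : ∃ L₀ : ℝ, ∀ L : ℝ, L₀ ≤ L →
    c' * (Real.log L) ^ 3 ≤ L ^ (1 / 20 : ℝ) ∧ 200 * L ^ (19 / 20 : ℝ) ≤ L ∧
    900 * Real.log L * L ^ (19 / 20 : ℝ) ≤ L ∧ M ≤ L ∧
    1000 ≤ L ∧ 100 ≤ Real.log L := by
  have h1 : ∀ᶠ L : ℝ in atTop, c' * (Real.log L) ^ 3 ≤ L ^ (1 / 20 : ℝ) := by
    have e1 : (fun L : ℝ => (Real.log L) ^ (3:ℝ)) =o[atTop] (fun L : ℝ => L ^ (1 / 20 : ℝ)) :=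
      isLittleO_log_rpow_rpow_atTop 3 (by norm_num)
    have e2 := e1.def (show (0:ℝ) < 1 / (|c'| + 1) by positivity)
    filter_upwards [e2, eventually_ge_atTop (1:ℝ)] with L hL hL2
    have hl : 0 ≤ Real.log L := Real.log_nonneg hL2
    rw [Real.norm_eq_abs, Real.norm_eq_abs, abs_of_nonneg (Real.rpow_nonneg hl _),
      abs_of_nonneg (Real.rpow_nonneg (by linarith) _)] at hL
    have e3 : (Real.log L) ^ (3:ℝ) = (Real.log L) ^ 3 := by
      rw [← Real.rpow_natCast]; norm_num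
    rw [e3] at hL
    have e4 : (|c'| + 1) * (Real.log L) ^ 3 ≤ L ^ (1 / 20 : ℝ) := by
      rw [div_mul_eq_mul_div, one_mul, le_div_iff₀ (by positivity)] at hL
      linarith
    have e5 : c' * (Real.log L) ^ 3 ≤ (|c'| + 1) * (Real.log L) ^ 3 := by
      apply mul_le_mul_of_nonneg_right _ (by positivity)
      linarith [le_abs_self c']
    linarith
  have hrp : ∀ a : ℝ, 0 < a → ∀ b : ℝ, ∀ᶠ L : ℝ in atTop, b ≤ L ^ a := fun a ha b =>
    (tendsto_rpow_atTop ha).eventually_ge_atTop b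
  have h2 : ∀ᶠ L : ℝ in atTop, 200 * L ^ (19 / 20 : ℝ) ≤ L := by
    filter_upwards [hrp (1/20) (by norm_num) 200, eventually_ge_atTop (1:ℝ)] with L hL hL2
    have e1 : L ^ (1 / 20 : ℝ) * L ^ (19 / 20 : ℝ) = L := by
      rw [← Real.rpow_add (by linarith)]; norm_num
    calc 200 * L ^ (19 / 20 : ℝ) ≤ L ^ (1 / 20 : ℝ) * L ^ (19 / 20 : ℝ) :=
          mul_le_mul_of_nonneg_right hL (Real.rpow_nonneg (by linarith) _)
      _ = L := e1
  have h3 : ∀ᶠ L : ℝ in atTop, 900 * Real.log L * L ^ (19 / 20 : ℝ) ≤ L := by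
    have e1 : (fun L : ℝ => Real.log L) =o[atTop] (fun L : ℝ => L ^ (1 / 20 : ℝ)) :=
      isLittleO_log_rpow_atTop (by norm_num)
    have e2 := e1.def (show (0:ℝ) < 1 / 900 by norm_num)
    filter_upwards [e2, eventually_ge_atTop (1:ℝ)] with L hL hL2
    have hl : 0 ≤ Real.log L := Real.log_nonneg hL2
    rw [Real.norm_eq_abs, Real.norm_eq_abs, abs_of_nonneg hl,
      abs_of_nonneg (Real.rpow_nonneg (by linarith) _)] at hL
    have e3 : L ^ (1 / 20 : ℝ) * L ^ (19 / 20 : ℝ) = L := by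
      rw [← Real.rpow_add (by linarith)]; norm_num
    calc 900 * Real.log L * L ^ (19 / 20 : ℝ) ≤ L ^ (1 / 20 : ℝ) * L ^ (19 / 20 : ℝ) :=
          mul_le_mul_of_nonneg_right (by linarith) (Real.rpow_nonneg (by linarith) _)
      _ = L := e3
  obtain ⟨L₀, h⟩ := Filter.eventually_atTop.mp
    (((((h1.and h2).and h3).and (eventually_ge_atTop M)).and
      (eventually_ge_atTop (1000:ℝ))).and (Real.tendsto_log_atTop.eventually_ge_atTop 100))
  exact ⟨L₀, fun L hL => ⟨(h L hL).1.1.1.1.1, (h L hL).1.1.1.1.2, (h L hL).1.1.1.2,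
    (h L hL).1.1.2, (h L hL).1.2, (h L hL).2⟩⟩

/-- average over the second classes -/
theorem shift_avg (J : ℕ) : ∑ j ∈ range J, ∏ p ∈ (j + 1).primeFactors, (1 + 3 / (p : ℝ)) =
    ∑ a ∈ Finset.Icc 1 J, ∏ p ∈ a.primeFactors, (1 + 3 / (p : ℝ)) := by
  rw [Finset.range_eq_Ico, Finset.sum_Ico_add' (fun a : ℕ => ∏ p ∈ a.primeFactors,
    (1 + 3 / (p : ℝ))) 0 J 1]
  refine Finset.sum_congr ?_ fun _ _ => rfl
  ext a
  simp only [Finset.mem_Ico, Finset.mem_Icc]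
  omega

end Pool.Agent.U602.SQ.L
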