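import Pool.Agent.U602.SQ.L.Lin1
import Pool.Agent.U602.SQ.L.Q3
import Pool.Agent.U602.SQ.L.M1p
import Pool.Agent.H426R3.SQ.Cov
import Pool.Agent.H426R3.SQ.R1
import Pool.Agent.H426R3.SQ.N1
import Pool.Agent.H426R3.SQ.N2
import Pool.Agent.H426R3.SQ.N3
import Pool.Agent.H426R3.SQ.N4
import Pool.Agent.H426R3.SQ.N5
import Pool.Agent.H426R3.SQ.S3e

set_option autoImplicit false

/-! Copy of `Pool/Agent/H426R3/SQ/Lin2.lean` (helper426 and others), so that it can be imported together with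
`Pool/Agent/H256R2/SC/Par.lean`. -/

/-! # Record gaps around a number and its square (helper426) -/

namespace Pool.Agent.U602.SQ.L

open Pool.Agent.H426R3.SQ Pool.Agent.U602.SQ.G

open Finset Pool.Agent.H256R2.SC

open scoped Classical

theorem GLin_card (y : ℝ) (T T₀ : ℕ) (hT : T ≤ T₀) :
    ((GLin y T).card : ℝ) ≤ ((SV y T₀ 1).card : ℝ) + ((SV y T₀ (-1)).card : ℝ) := by
  have hsub : GLin y T ⊆ (SV y T₀ 1).image (fun u : ℕ => (u : ℤ)) ∪
      (SV y T₀ (-1)).image (fun u : ℕ => -(u : ℤ)) := by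
    intro u hu
    unfold GLin at hu
    rw [mem_filter, mem_Icc] at hu
    obtain ⟨⟨h1, h2⟩, h3, h6, h7⟩ := hu
    rcases lt_or_gt_of_ne h3 with h | h
    · apply mem_union_right
      obtain ⟨v, hv⟩ := Int.eq_ofNat_of_zero_le (show 0 ≤ -u by linarith)
      have hv' : u = -(v : ℤ) := by linarith
      refine mem_image.mpr ⟨v, ?_, hv'.symm⟩
      unfold SV
      rw [mem_filter, mem_Icc]
      refine ⟨⟨by omega, by omega⟩, fun p hp hp1 hp2 hd => h6 p hp hp1 hp2 ?_,
        fun p hp hp1 hd => h7 p hp hp1 ?_⟩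
      · rw [hv']
        exact (Int.dvd_neg).mpr (by exact_mod_cast hd)
      · have e : u + 1 = -((v : ℤ) + (-1)) := by rw [hv']; ring
        rw [e]
        exact (Int.dvd_neg).mpr hd
    · apply mem_union_left
      obtain ⟨v, hv⟩ := Int.eq_ofNat_of_zero_le h.le
      have hv' : u = (v : ℤ) := hv
      refine mem_image.mpr ⟨v, ?_, hv'.symm⟩
      unfold SV
      rw [mem_filter, mem_Icc]
      refine ⟨⟨by omega, by omega⟩, fun p hp hp1 hp2 hd => h6 p hp hp1 hp2 ?_,
        fun p hp hp1 hd => h7 p hp hp1 ?_⟩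
      · rw [hv']
        exact_mod_cast hd
      · rw [hv']
        exact hd
  have h1 : (GLin y T).card ≤ (SV y T₀ 1).card + (SV y T₀ (-1)).card := by
    calc (GLin y T).card ≤ _ := Finset.card_le_card hsub
      _ ≤ _ := Finset.card_union_le _ _
      _ ≤ _ := Nat.add_le_add Finset.card_image_le Finset.card_image_le
  exact_mod_cast h1

theorem GP_card (y : ℝ) (T T₀ : ℕ) (hT : T ≤ T₀) (Bad : Finset ℤ) :
    ((GP y T Bad).card : ℝ) ≤ 2 * (((SV y T₀ 1).card : ℝ) + ((SV y T₀ (-1)).card : ℝ)) := by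
  have hsub : GG y T Bad ⊆ GLin y T := by
    intro u hu
    unfold GG at hu
    unfold GLin
    rw [mem_filter] at hu ⊢
    exact ⟨hu.1, hu.2.1, hu.2.2.2.2⟩
  have h1 := GLin_card y T T₀ hT
  have h2 : ((GP y T Bad).card : ℝ) ≤ ((GLin y T).card : ℝ) + ((GLin y T).card : ℝ) := by
    have h3 : (GP y T Bad).card ≤ (GG y T Bad).card + (GLin y T).card := by
      unfold GP
      exact (card_union_le _ _).trans (Nat.add_le_add card_image_le card_image_le)
    have h4 := card_le_card hsub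
    have h5 : (GP y T Bad).card ≤ (GLin y T).card + (GLin y T).card := by omega
    exact_mod_cast h5
  linarith

/-- a prime in the medium range -/
theorem exists_medium {y : ℝ} (hy : 100 ≤ y) (h97 : 97 ≤ Real.log y)
    (h1 : 1 ≤ Real.log (Real.log y)) :
    ∃ p : ℕ, p.Prime ∧ zR y < (p : ℝ) ∧ (p : ℝ) ≤ y := by
  have hy0 : 0 < y := by linarith
  have hz : zR y ≤ y / 4 := by
    unfold zR
    rw [← Real.le_log_iff_exp_le (by positivity), Real.log_div hy0.ne' (by norm_num)]
    have h3 : Real.log (Real.log (Real.log y)) ≤ Real.log (Real.log y) :=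
      (Real.log_le_sub_one_of_pos (by linarith)).trans (by linarith)
    have h4 : Real.log y * Real.log (Real.log (Real.log y)) / (10 * Real.log (Real.log y)) ≤
        Real.log y / 10 := by
      rw [div_le_div_iff₀ (by positivity) (by norm_num)]
      have : Real.log y * Real.log (Real.log (Real.log y)) ≤
          Real.log y * Real.log (Real.log y) := mul_le_mul_of_nonneg_left h3 (by linarith)
      linarith
    have h5 : Real.log 4 ≤ 3 := by
      have := Real.log_le_sub_one_of_pos (show (0:ℝ) < 4 by norm_num)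
      linarith
    linarith
  obtain ⟨p, hp, hp1, hp2⟩ := Nat.exists_prime_lt_and_le_two_mul ⌊y / 2⌋₊ (by
    have : 1 ≤ ⌊y / 2⌋₊ := Nat.le_floor (by push_cast; linarith)
    omega)
  have h6 := Nat.floor_le (show 0 ≤ y / 2 by positivity)
  have h7 := Nat.lt_floor_add_one (y / 2)
  have h8 : ((⌊y / 2⌋₊ : ℕ) : ℝ) + 1 ≤ (p : ℝ) := by exact_mod_cast hp1
  have h9 : (p : ℝ) ≤ 2 * ((⌊y / 2⌋₊ : ℕ) : ℝ) := by exact_mod_cast hp2
  exact ⟨p, hp, by linarith, by linarith⟩

end Pool.Agent.U602.SQ.L
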