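import Pool.Agent.H426R3.SQ.Defs
import Pool.Agent.U602.SQ.L.G1
import Pool.Agent.H256R2.SC.V1

set_option autoImplicit false

/-! Copy of `Pool/Agent/H426R3/SQ/M1a.lean` (helper426 and others), so that it can be imported together with
`Pool/Agent/H256R2/SC/Par.lean`. -/

/-! # Auxiliary facts for the main theorem (helper426) -/

namespace Pool.Agent.U602.SQ.L

open Pool.Agent.H426R3.SQ Pool.Agent.U602.SQ.G

open Finset Filter

/-- distinct representatives from large sets -/
theorem exists_inj_choice {α : Type} [DecidableEq α] (S : Finset α) (P : α → Finset ℕ) :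
    (∀ a ∈ S, S.card ≤ (P a).card) → ∃ f : α → ℕ, (∀ a ∈ S, f a ∈ P a) ∧ Set.InjOn f (S : Set α) := by
  induction S using Finset.induction_on with
  | empty => intro _; exact ⟨fun _ => 0, by simp, by simp⟩
  | insert a S ha ih =>
    intro h
    rw [Finset.card_insert_of_notMem ha] at h
    obtain ⟨f, hf1, hf2⟩ := ih (fun b hb => by
      have := h b (Finset.mem_insert_of_mem hb)
      omega)
    have h1 : ∃ q ∈ P a, q ∉ S.image f := by
      by_contra hc
      push Not at hc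
      have h2 : (P a).card ≤ (S.image f).card := Finset.card_le_card (fun q hq => hc q hq)
      have h3 : (S.image f).card ≤ S.card := Finset.card_image_le
      have h4 := h a (Finset.mem_insert_self _ _)
      omega
    obtain ⟨q, hq1, hq2⟩ := h1
    refine ⟨fun b => if b = a then q else f b, ?_, ?_⟩
    · intro b hb
      by_cases hba : b = a
      · simp only [hba, if_true]
        exact hq1
      · simp only [hba, if_false]
        exact hf1 b (Finset.mem_of_mem_insert_of_ne hb hba)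
    · intro b hb c hc hbc
      rw [Finset.mem_coe] at hb hc
      simp only at hbc
      by_cases hba : b = a
      · by_cases hca : c = a
        · rw [hba, hca]
        · rw [if_pos hba, if_neg hca] at hbc
          exact absurd (Finset.mem_image.mpr ⟨c, Finset.mem_of_mem_insert_of_ne hc hca, hbc.symm⟩)
            hq2
      · by_cases hca : c = a
        · rw [if_neg hba, if_pos hca] at hbc
          exact absurd (Finset.mem_image.mpr ⟨b, Finset.mem_of_mem_insert_of_ne hb hba, hbc⟩) hq2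
        · rw [if_neg hba, if_neg hca] at hbc
          exact hf2 (Finset.mem_of_mem_insert_of_ne hb hba)
            (Finset.mem_of_mem_insert_of_ne hc hca) hbc

theorem ff_eq (X : ℝ) : Pool.Agent.H426R3.SQ.ff X = Pool.Agent.U602.SQ.G.ff X := rfl

/-- largeness conditions -/
theorem ev_L (c' : ℝ) (M : ℝ) : ∃ L₀ : ℝ, ∀ L : ℝ, L₀ ≤ L →
    c' * (Real.log L) ^ 3 ≤ L ^ (1 / 10 : ℝ) ∧ 200 * L ^ (9 / 10 : ℝ) ≤ L ∧
    900 * Real.log L * L ^ (9 / 10 : ℝ) ≤ L ∧ 100 * L ^ (1 / 20 : ℝ) ≤ L ∧ M ≤ L ∧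
    1000 ≤ L ∧ 100 ≤ Real.log L := by
  have h1 : ∀ᶠ L : ℝ in atTop, c' * (Real.log L) ^ 3 ≤ L ^ (1 / 10 : ℝ) := by
    have e1 : (fun L : ℝ => (Real.log L) ^ (3:ℝ)) =o[atTop] (fun L : ℝ => L ^ (1 / 10 : ℝ)) :=
      isLittleO_log_rpow_rpow_atTop 3 (by norm_num)
    have e2 := e1.def (show (0:ℝ) < 1 / (|c'| + 1) by positivity)
    filter_upwards [e2, eventually_ge_atTop (1:ℝ)] with L hL hL2
    have hl : 0 ≤ Real.log L := Real.log_nonneg hL2
    rw [Real.norm_eq_abs, Real.norm_eq_abs, abs_of_nonneg (Real.rpow_nonneg hl _),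
      abs_of_nonneg (Real.rpow_nonneg (by linarith) _)] at hL
    have e3 : (Real.log L) ^ (3:ℝ) = (Real.log L) ^ 3 := by
      rw [← Real.rpow_natCast]; norm_num
    rw [e3] at hL
    have e4 : (|c'| + 1) * (Real.log L) ^ 3 ≤ L ^ (1 / 10 : ℝ) := by
      rw [div_mul_eq_mul_div, one_mul, le_div_iff₀ (by positivity)] at hL
      linarith
    have e5 : c' * (Real.log L) ^ 3 ≤ (|c'| + 1) * (Real.log L) ^ 3 := by
      apply mul_le_mul_of_nonneg_right _ (by positivity)
      linarith [le_abs_self c']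
    linarith
  have hrp : ∀ a : ℝ, 0 < a → ∀ b : ℝ, ∀ᶠ L : ℝ in atTop, b ≤ L ^ a := fun a ha b =>
    (tendsto_rpow_atTop ha).eventually_ge_atTop b
  have h2 : ∀ᶠ L : ℝ in atTop, 200 * L ^ (9 / 10 : ℝ) ≤ L := by
    filter_upwards [hrp (1/10) (by norm_num) 200, eventually_ge_atTop (1:ℝ)] with L hL hL2
    have e1 : L ^ (1 / 10 : ℝ) * L ^ (9 / 10 : ℝ) = L := by
      rw [← Real.rpow_add (by linarith)]; norm_num
    calc 200 * L ^ (9 / 10 : ℝ) ≤ L ^ (1 / 10 : ℝ) * L ^ (9 / 10 : ℝ) :=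
          mul_le_mul_of_nonneg_right hL (Real.rpow_nonneg (by linarith) _)
      _ = L := e1
  have h3 : ∀ᶠ L : ℝ in atTop, 900 * Real.log L * L ^ (9 / 10 : ℝ) ≤ L := by
    have e1 : (fun L : ℝ => Real.log L) =o[atTop] (fun L : ℝ => L ^ (1 / 10 : ℝ)) :=
      isLittleO_log_rpow_atTop (by norm_num)
    have e2 := e1.def (show (0:ℝ) < 1 / 900 by norm_num)
    filter_upwards [e2, eventually_ge_atTop (1:ℝ)] with L hL hL2
    have hl : 0 ≤ Real.log L := Real.log_nonneg hL2
    rw [Real.norm_eq_abs, Real.norm_eq_abs, abs_of_nonneg hl,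
      abs_of_nonneg (Real.rpow_nonneg (by linarith) _)] at hL
    have e3 : L ^ (1 / 10 : ℝ) * L ^ (9 / 10 : ℝ) = L := by
      rw [← Real.rpow_add (by linarith)]; norm_num
    calc 900 * Real.log L * L ^ (9 / 10 : ℝ) ≤ L ^ (1 / 10 : ℝ) * L ^ (9 / 10 : ℝ) :=
          mul_le_mul_of_nonneg_right (by linarith) (Real.rpow_nonneg (by linarith) _)
      _ = L := e3
  have h4 : ∀ᶠ L : ℝ in atTop, 100 * L ^ (1 / 20 : ℝ) ≤ L := by
    filter_upwards [hrp (19/20) (by norm_num) 100, eventually_ge_atTop (1:ℝ)] with L hL hL2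
    have e1 : L ^ (19 / 20 : ℝ) * L ^ (1 / 20 : ℝ) = L := by
      rw [← Real.rpow_add (by linarith)]; norm_num
    calc 100 * L ^ (1 / 20 : ℝ) ≤ L ^ (19 / 20 : ℝ) * L ^ (1 / 20 : ℝ) :=
          mul_le_mul_of_nonneg_right hL (Real.rpow_nonneg (by linarith) _)
      _ = L := e1
  obtain ⟨L₀, h⟩ := Filter.eventually_atTop.mp
    ((((((h1.and h2).and h3).and h4).and (eventually_ge_atTop M)).and
      (eventually_ge_atTop (1000:ℝ))).and (Real.tendsto_log_atTop.eventually_ge_atTop 100))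
  exact ⟨L₀, fun L hL => ⟨(h L hL).1.1.1.1.1.1, (h L hL).1.1.1.1.1.2, (h L hL).1.1.1.1.2,
    (h L hL).1.1.1.2, (h L hL).1.1.2, (h L hL).1.2, (h L hL).2⟩⟩

/-- `zR y ≤ y` -/
theorem zR_le {y : ℝ} (hy : 0 < y) (h1 : 1 ≤ Real.log y) (h2 : 1 ≤ Real.log (Real.log y)) :
    zR y ≤ y := by
  unfold zR
  rw [← Real.le_log_iff_exp_le hy, div_le_iff₀ (by positivity)]
  have h3 : Real.log (Real.log (Real.log y)) ≤ Real.log (Real.log y) :=
    (Real.log_le_sub_one_of_pos (by linarith)).trans (by linarith)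
  have h4 : Real.log (Real.log (Real.log y)) ≤ 10 * Real.log (Real.log y) := by linarith
  exact mul_le_mul_of_nonneg_left h4 (by linarith)

end Pool.Agent.U602.SQ.L
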