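import Pool.Agent.U602.SQ.L.Q1

set_option autoImplicit false

/-! Copy of `Pool/Agent/H426R3/SQ/Q2.lean` (helper426 and others), so that it can be imported together with
`Pool/Agent/H256R2/SC/Par.lean`. -/

/-! # The arithmetic core for consecutive squares and pronic numbers, second part (helper426) -/

namespace Pool.Agent.U602.SQ.L

open Pool.Agent.H426R3.SQ Pool.Agent.U602.SQ.G

open Finset Pool.Agent.H256R2.SC

open scoped Classical

theorem filter_helper (S : Finset ℤ) (P Q R : ℤ → Prop) (d1 : DecidablePred P)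
    (d2 : DecidablePred Q) (d3 : DecidablePred (fun a => P a ∧ R a)) (h : ∀ a, Q a ↔ R a) :
    (@Finset.filter ℤ Q d2 (@Finset.filter ℤ P d1 S)).card =
      (@Finset.filter ℤ (fun a => P a ∧ R a) d3 S).card := by
  have : (@Finset.filter ℤ Q d2 (@Finset.filter ℤ P d1 S)) =
      (@Finset.filter ℤ (fun a => P a ∧ R a) d3 S) := by
    ext a
    simp [h, and_assoc]
  rw [this]

/-- the arithmetic core -/
theorem qs_arith {c₂ c Y : ℝ} (hcov : CovAt c₂ c Y) (hY : 1 ≤ Y) {y : ℝ} (hy2 : 2 ≤ y)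
    (hzy : zR y ≤ y) (hyL : y ≤ (Real.log Y) ^ 3) (hL3 : Real.exp 3 ≤ (Real.log Y) ^ 3)
    {J Z : ℕ} (hT : 13 * ((4 * Z + 1 : ℕ) : ℝ) ^ 2 < (Real.log Y) ^ 3) (hJT : J ^ 2 ≤ 4 * Z + 1)
    (Bad : Finset ℤ) (pu : ℕ × ℤ → ℕ) (P9 R : ℝ) (hP9 : 1 ≤ P9)
    (hpu : ∀ u ∈ range J ×ˢ Bad, (pu u).Prime ∧ y < (pu u : ℝ) ∧ (pu u : ℝ) ≤ P9 ∧
      ∃ t : ℤ, (pu u : ℤ) ∣ t ^ 2 + u.2)
    (hinj : Set.InjOn pu ((range J ×ˢ Bad : Finset (ℕ × ℤ)) : Set (ℕ × ℤ)))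
    (hrough : ∀ w : ℤ, w ≠ 0 → ¬ IsSquare (-w) → |w| ≤ ((4 * Z + 1 : ℕ) : ℤ) → w ∉ Bad →
      ∀ z x : ℝ, (Real.log Y) ^ 3 ≤ x →
      x ≤ z → z ≤ Real.exp ((Real.log Y) ^ (1 / 20 : ℝ)) →
      c₂ * Real.log x / Real.log (Real.log Y) - 1 ≤
        ∑ s ∈ ((SP ((Real.log Y) ^ 3) z ((range J ×ˢ Bad).image pu)).powerset.filter
            (fun s : Finset ℕ => s.Nonempty ∧ ∏ p ∈ s, (p : ℝ) ≤ x)), ∏ p ∈ s, gk w p)
    (hcard : ((GQ y J Z Bad).card : ℝ) ≤ c * Real.log Y)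
    (hW : 4 * ((primorial ⌊y⌋₊ : ℝ) * P9 ^ (J * Bad.card)) ≤ Y ^ (1 / 2 : ℝ))
    (hR1 : y ≤ R) (hR2 : P9 ≤ R) (hR3 : Real.exp ((Real.log Y) ^ (1 / 20 : ℝ)) ≤ R)
    (hR4 : R + Z < Y ^ 2) (hR5 : 4 * (Z : ℝ) + 8 ≤ Y) (M : ℕ) (hM : Y ≤ (M : ℝ)) :
    ∃ m : ℕ, M < m ∧ (m : ℝ) ≤ M + Y ∧ ∀ j : ℕ, j < J →
      ∀ k : ℕ, |(k : ℤ) - ((m : ℤ) ^ 2 + (j : ℤ) * (m : ℤ) + (qs j : ℤ))| ≤ (Z : ℤ) →
        ¬ k.Prime := by
  have hy0 : 0 ≤ y := by linarith
  have hY0 : 0 < Y := by linarith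
  set L : ℝ := Real.log Y with hL
  have hL0 : 0 ≤ L := Real.log_nonneg hY
  have hYr : ∀ s : ℝ, Y ^ s = Real.exp (s * L) := by
    intro s
    rw [Real.rpow_def_of_pos hY0, mul_comm]
  -- large primes are odd
  have hodd : ∀ p : ℕ, y < (p : ℝ) → p ≠ 2 := by
    rintro p h rfl
    have : (((2 : ℕ) : ℝ)) = 2 := by norm_num
    rw [this] at h
    linarith
  -- the set of primes
  set S₁ : Finset ℕ := (range (⌊y⌋₊ + 1)).filter Nat.Prime with hS₁
  set B : Finset ℕ := (range J ×ˢ Bad).image pu with hB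
  have hBcard : B.card ≤ J * Bad.card := by
    rw [hB]
    refine card_image_le.trans ?_
    rw [card_product, card_range]
  have hS₁mem : ∀ p : ℕ, p ∈ S₁ ↔ p.Prime ∧ (p : ℝ) ≤ y := by
    intro p
    rw [hS₁, mem_filter, mem_range, Nat.lt_succ_iff, Nat.le_floor_iff hy0]
    exact and_comm
  have hBmem : ∀ p ∈ B, p.Prime ∧ y < (p : ℝ) ∧ (p : ℝ) ≤ P9 := by
    intro p hp
    obtain ⟨u, hu, rfl⟩ := mem_image.mp hp
    exact ⟨(hpu u hu).1, (hpu u hu).2.1, (hpu u hu).2.2.1⟩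
  have hdisj : Disjoint S₁ B := by
    rw [Finset.disjoint_left]
    intro p h1 h2
    have h3 := ((hS₁mem p).mp h1).2
    have h4 := (hBmem p h2).2.1
    linarith
  set S : Finset ℕ := S₁ ∪ B with hS
  have hSp : ∀ p ∈ S, p.Prime := by
    intro p hp
    rcases mem_union.mp hp with h | h
    · exact ((hS₁mem p).mp h).1
    · exact (hBmem p h).1
  set W : ℕ := ∏ p ∈ S, p with hWdef
  have hWeq : W = primorial ⌊y⌋₊ * ∏ p ∈ B, p := by
    rw [hWdef, hS, prod_union hdisj]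
    rfl
  have hWpos : 1 ≤ W := Nat.one_le_iff_ne_zero.mpr
    (Finset.prod_ne_zero_iff.mpr fun p hp => (hSp p hp).ne_zero)
  have hWle : (W : ℝ) ≤ (primorial ⌊y⌋₊ : ℝ) * P9 ^ (J * Bad.card) := by
    rw [hWeq]
    push_cast
    apply mul_le_mul_of_nonneg_left _ (Nat.cast_nonneg _)
    calc ∏ p ∈ B, (p : ℝ) ≤ ∏ p ∈ B, P9 :=
          prod_le_prod (fun _ _ => Nat.cast_nonneg _) fun p hp => (hBmem p hp).2.2
      _ = P9 ^ B.card := by rw [prod_const]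
      _ ≤ P9 ^ (J * Bad.card) := pow_le_pow_right₀ hP9 hBcard
  have hWr : (0 : ℝ) < W := by exact_mod_cast hWpos
  -- roots for the bad shifts
  have hroot : ∀ p : ℕ, ∃ t : ℤ, ∀ u ∈ range J ×ˢ Bad, pu u = p →
      (p : ℤ) ∣ (2 * t + (u.1 : ℤ)) ^ 2 + u.2 := by
    intro p
    by_cases h : ∃ u ∈ range J ×ˢ Bad, pu u = p
    · obtain ⟨u, hu, hup⟩ := h
      obtain ⟨q1, q2, _, t, ht⟩ := hpu u hu
      refine ⟨(hh (pu u) : ℤ) * (t - (u.1 : ℤ)), fun v hv hvp => ?_⟩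
      have : v = u := hinj hv hu (hvp.trans hup.symm)
      rw [this, ← hup]
      have h3 : 2 * (hh (pu u) : ℤ) = (pu u : ℤ) + 1 := by
        exact_mod_cast two_hh q1 (hodd _ q2)
      rw [C1e_congr u.2 (pu u) _ t]
      · exact ht
      · refine ⟨t - (u.1 : ℤ), ?_⟩
        linear_combination (t - (u.1 : ℤ)) * h3
    · exact ⟨0, fun u hu hup => absurd ⟨u, hu, hup⟩ h⟩
  choose tt htt using hroot
  obtain ⟨r, hr⟩ := crt_int S (fun p => (p : ℤ)) (by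
      intro i hi j hj hij
      exact Nat.isCoprime_iff_coprime.mpr ((Nat.coprime_primes (hSp i hi) (hSp j hj)).mpr hij))
    (fun p => if (p : ℝ) ≤ zR y then 1 else if (p : ℝ) ≤ y then 0 else tt p)
  set 𝒜 : Finset ℤ := (Ioc (M : ℤ) ((M : ℤ) + ⌊Y⌋₊)).filter (fun a => (W : ℤ) ∣ a - r) with h𝒜
  have hfl : Y / 2 ≤ (⌊Y⌋₊ : ℝ) := by
    have h1 := Nat.lt_floor_add_one Y
    have h2 : (1 : ℝ) ≤ (⌊Y⌋₊ : ℝ) := by
      have : 1 ≤ ⌊Y⌋₊ := Nat.le_floor (by simpa using hY)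
      exact_mod_cast this
    linarith
  set N : ℝ := (⌊Y⌋₊ : ℝ) / W with hNdef
  have hN : Y ^ (1 / 2 : ℝ) ≤ N := by
    rw [hNdef, le_div_iff₀ hWr]
    have h1 : (Y ^ (1 / 2 : ℝ)) * (Y ^ (1 / 2 : ℝ)) = Y := by
      rw [← Real.rpow_add hY0]; norm_num
    have h2 : 0 < Y ^ (1 / 2 : ℝ) := Real.rpow_pos_of_pos hY0 _
    have h3 : (W : ℝ) ≤ Y ^ (1 / 2 : ℝ) / 4 := by linarith
    calc Y ^ (1 / 2 : ℝ) * W ≤ Y ^ (1 / 2 : ℝ) * (Y ^ (1 / 2 : ℝ) / 4) :=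
          mul_le_mul_of_nonneg_left h3 h2.le
      _ = Y / 4 := by rw [← mul_div_assoc, h1]
      _ ≤ _ := by linarith
  -- the counts
  have hcount : ∀ (T' : Finset ℕ) (t s : ℕ → ℤ), (∀ p ∈ T', p.Prime ∧ L ^ 3 < p ∧ p ∉ B) →
      |((𝒜.filter (fun a => ∀ p ∈ T', (p : ℤ) ∣ (2 * a + t p) ^ 2 + s p)).card : ℝ) -
        N * ∏ p ∈ T', gk (s p) p| ≤ 2 ^ T'.card := by
    intro T' t s hT'
    have hnd : ∀ p ∈ T', p.Prime ∧ ¬ p ∣ W := by
      intro p hp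
      obtain ⟨h1, h2, h3⟩ := hT' p hp
      refine ⟨h1, fun h4 => ?_⟩
      rw [hWdef, Prime.dvd_finsetProd_iff h1.prime] at h4
      obtain ⟨q, hq, hpq⟩ := h4
      have h5 : p = q := (Nat.prime_dvd_prime_iff_eq h1 (hSp q hq)).mp hpq
      rw [← h5] at hq
      rcases mem_union.mp hq with h | h
      · have := ((hS₁mem p).mp h).2
        linarith
      · exact h3 h
    have hp2 : ∀ p ∈ T', p ≠ 2 := fun p hp => hodd p (by
      have := (hT' p hp).2.1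
      linarith)
    have h1 := count_sq_shift (M : ℤ) ((M : ℤ) + ⌊Y⌋₊) (by omega) W hWpos r T' hnd
      (fun p => (hh p : ℤ) * t p) (fun p => (hh p : ℤ) ^ 2 * s p)
    have hiff : ∀ a : ℤ, (∀ p ∈ T', (p : ℤ) ∣ (2 * a + t p) ^ 2 + s p) ↔
        (∀ p ∈ T', (p : ℤ) ∣ (a + (hh p : ℤ) * t p) ^ 2 + (hh p : ℤ) ^ 2 * s p) := by
      intro a
      refine forall₂_congr fun p hp => ?_
      exact scale_iff (hT' p hp).1 (hp2 p hp) a (t p) (s p)
    have h2 := filter_helper (Ioc (M : ℤ) ((M : ℤ) + ⌊Y⌋₊)) (fun a : ℤ => (W : ℤ) ∣ a - r) _ _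
      (fun a => inferInstance) (fun a => inferInstance) (fun a => inferInstance) hiff
    have h3 : ∏ p ∈ T', gk (s p) p =
        ∏ p ∈ T', (rho ((hh p : ℤ) ^ 2 * s p) p : ℝ) / (p : ℝ) := by
      refine prod_congr rfl fun p hp => ?_
      unfold gk
      rw [if_pos (hT' p hp).1, rho_scale (hT' p hp).1 (hp2 p hp)]
    have h4 : (((M : ℤ) + ⌊Y⌋₊ : ℤ) : ℝ) - ((M : ℤ) : ℝ) = (⌊Y⌋₊ : ℝ) := by
      push_cast
      ring
    rw [h4] at h1
    have h5 : ((𝒜.filter (fun a => ∀ p ∈ T', (p : ℤ) ∣ (2 * a + t p) ^ 2 + s p)).card : ℝ) =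
        (((Ioc (M : ℤ) ((M : ℤ) + ⌊Y⌋₊)).filter (fun a : ℤ => (W : ℤ) ∣ a - r ∧
        ∀ p ∈ T', (p : ℤ) ∣ (a + (hh p : ℤ) * t p) ^ 2 + (hh p : ℤ) ^ 2 * s p)).card : ℝ) := by
      rw [h𝒜]
      norm_cast
    rw [h5, h3, hNdef]
    have hfin : ∏ p ∈ T', (rho ((hh p : ℤ) ^ 2 * s p) p : ℝ) ≤ 2 ^ T'.card := by
      calc ∏ p ∈ T', (rho ((hh p : ℤ) ^ 2 * s p) p : ℝ) ≤ ∏ p ∈ T', (2 : ℝ) :=
            prod_le_prod (fun _ _ => Nat.cast_nonneg _) fun p hp => by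
              exact_mod_cast rho_le_two _ p (hT' p hp).1
        _ = 2 ^ T'.card := by rw [prod_const]
    refine le_trans (le_of_eq ?_) (h1.trans hfin)
    congr!
  have hN2 : 4 ≤ N := by
    refine le_trans ?_ hN
    refine le_trans ?_ hW
    have h1 : (1 : ℝ) ≤ (primorial ⌊y⌋₊ : ℝ) := by
      exact_mod_cast Nat.one_le_iff_ne_zero.mpr (primorial_pos _).ne'
    have h2 : (1 : ℝ) ≤ P9 ^ (J * Bad.card) := one_le_pow₀ hP9
    nlinarith
  -- the covering step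
  have key : ∃ a ∈ 𝒜, ∀ u ∈ GQ y J Z Bad, ∃ p : ℕ, p.Prime ∧ p ≠ 2 ∧
      (p : ℝ) ≤ Real.exp (L ^ (1 / 20 : ℝ)) ∧ (p : ℤ) ∣ (2 * a + (u.1 : ℤ)) ^ 2 + wq u := by
    rcases (GQ y J Z Bad).eq_empty_or_nonempty with hE | hE
    · have h1 := hcount ∅ (fun _ => 0) (fun _ => 0) (by simp)
      simp only [Finset.notMem_empty, IsEmpty.forall_iff, implies_true, filter_true, prod_empty,
        mul_one, card_empty, pow_zero] at h1
      have h2 : (0 : ℝ) < (𝒜.card : ℝ) := by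
        have := (abs_le.mp h1).1
        linarith
      obtain ⟨a, ha⟩ := Finset.card_pos.mp (by exact_mod_cast h2)
      exact ⟨a, ha, fun u hu => by rw [hE] at hu; exact absurd hu (Finset.notMem_empty u)⟩
    · have hne : Nonempty (GQ y J Z Bad) := ⟨⟨hE.choose, hE.choose_spec⟩⟩
      have hG : ∀ u ∈ GQ y J Z Bad, u.1 < J ∧ |wq u| ≤ ((4 * Z + 1 : ℕ) : ℤ) ∧ wq u ∉ Bad ∧
          ¬ IsSquare (-(wq u)) := by
        intro u hu
        unfold GQ at hu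
        rw [mem_filter, mem_product, mem_range, mem_Icc] at hu
        refine ⟨hu.1.1, ?_, hu.2.2.1, hu.2.1⟩
        have h1 := hu.1.2
        have h2 : u.1 % 2 < 2 := Nat.mod_lt _ (by norm_num)
        unfold wq
        rw [abs_le]
        push_cast
        constructor <;> omega
      have hG0 : ∀ u ∈ GQ y J Z Bad, wq u ≠ 0 := by
        intro u hu h0
        apply (hG u hu).2.2.2
        rw [h0]
        exact ⟨0, by norm_num⟩
      obtain ⟨a, ha, hcv⟩ := hcov B (GQ y J Z Bad) (by simpa using hcard)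
        (fun p a k => (p : ℤ) ∣ (2 * a + ((k : ℕ × ℤ).1 : ℤ)) ^ 2 + wq (k : ℕ × ℤ))
        (fun p k => gk (wq (k : ℕ × ℤ)) p)
        (fun p k => gk_bound _ _)
        (by
          intro p hp hpL a k l h1 h2
          obtain ⟨k1, k2, _, k4⟩ := hG k k.2
          obtain ⟨l1, l2, _, _⟩ := hG l l.2
          obtain ⟨e1, e2⟩ := hit_unique (p := p) (a := 2 * a) (i := ((l : ℕ × ℤ).1 : ℤ))
            (j := ((k : ℕ × ℤ).1 : ℤ)) (u := wq (k : ℕ × ℤ)) (v := wq (l : ℕ × ℤ))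
            (J := (J : ℤ)) (T := ((4 * Z + 1 : ℕ) : ℤ)) (by positivity) (by exact_mod_cast l1)
            (by positivity) (by exact_mod_cast k1) (by exact_mod_cast hJT) k2 l2 k4
            (by
              have : 13 * ((4 * Z + 1 : ℕ) : ℝ) ^ 2 < (p : ℝ) := hT.trans hpL
              exact_mod_cast this) h1 h2
          have e3 : (k : ℕ × ℤ).1 = (l : ℕ × ℤ).1 := by exact_mod_cast e1.symm
          refine Subtype.ext (Prod.ext e3 ?_)
          unfold wq at e2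
          rw [e3] at e2
          linarith)
        (fun k z x h1 h2 h3 => hrough _ (hG0 k k.2) (hG k k.2).2.2.2 (hG k k.2).2.1
          (hG k k.2).2.2.1 z x h1 h2 h3)
        𝒜 N (Y ^ (1 / 10 : ℝ)) hN (Real.rpow_nonneg hY0.le _) le_rfl
        (by
          intro T' s hprod hT'
          have h1 := hcount T' (fun p => (((s p : GQ y J Z Bad) : ℕ × ℤ).1 : ℤ))
            (fun p => wq ((s p : GQ y J Z Bad) : ℕ × ℤ)) hT'
          refine h1.trans ?_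
          rw [hYr]
          have h2 := two_pow_le hL0 (T := T') (fun p hp => by
            have := (hT' p hp).2.1
            linarith) (by
              rw [hYr] at hprod
              refine hprod.trans (Real.exp_le_exp.mpr ?_)
              linarith)
          refine h2.trans (Real.exp_le_exp.mpr ?_)
          linarith)
      refine ⟨a, ha, fun u hu => ?_⟩
      obtain ⟨p, hp1, hp2, hp3, _, hp5⟩ := hcv ⟨u, hu⟩
      exact ⟨p, hp1, hodd p (by linarith), hp3, hp5⟩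
  obtain ⟨a, ha, hcv⟩ := key
  rw [h𝒜, mem_filter, mem_Ioc] at ha
  have ha0 : 0 < a := lt_of_le_of_lt (by positivity) ha.1.1
  obtain ⟨m, hm⟩ := Int.eq_ofNat_of_zero_le ha0.le
  have hmM : M < m := by
    have : (M : ℤ) < (m : ℤ) := by rw [← hm]; exact ha.1.1
    exact_mod_cast this
  have hmY : (m : ℝ) ≤ M + Y := by
    have h1 : (m : ℤ) ≤ (M : ℤ) + ⌊Y⌋₊ := by rw [← hm]; exact ha.1.2
    have h2 : (m : ℝ) ≤ (M : ℝ) + (⌊Y⌋₊ : ℝ) := by exact_mod_cast h1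
    have h3 := Nat.floor_le hY0.le
    linarith
  refine ⟨m, hmM, hmY, fun j hj k hk hkp => ?_⟩
  have hmr : Y < (m : ℝ) := by
    have : (M : ℝ) < (m : ℝ) := by exact_mod_cast hmM
    linarith
  have hkR : R < (k : ℝ) := by
    have h1 := (abs_le.mp hk).1
    have h2 : (m : ℝ) ^ 2 - (Z : ℝ) ≤ (k : ℝ) := by
      have h4 : (0 : ℤ) ≤ (j : ℤ) * (m : ℤ) := by positivity
      have h5 : (0 : ℤ) ≤ (qs j : ℤ) := by positivity
      have : (m : ℤ) ^ 2 - (Z : ℤ) ≤ (k : ℤ) := by linarith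
      exact_mod_cast this
    nlinarith
  have hnd : ∀ p : ℕ, p.Prime → (p : ℝ) ≤ R → ¬ (p : ℤ) ∣ (k : ℤ) := by
    intro p hp hpR h
    have h1 : p ∣ k := by exact_mod_cast h
    have h2 := (Nat.prime_dvd_prime_iff_eq hp hkp).mp h1
    rw [h2] at hpR
    linarith
  -- divisibility by the primes of S
  have hdiv : ∀ p ∈ S, (p : ℤ) ∣ a - (if (p : ℝ) ≤ zR y then 1 else if (p : ℝ) ≤ y then 0
      else tt p) := by
    intro p hp
    have h1 : (p : ℤ) ∣ a - r := by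
      refine dvd_trans ?_ ha.2
      exact_mod_cast Finset.dvd_prod_of_mem (fun p => p) hp
    have h2 := dvd_add h1 (hr p hp)
    have e : a - r + (r - (if (p : ℝ) ≤ zR y then 1 else if (p : ℝ) ≤ y then 0
      else tt p)) = a - (if (p : ℝ) ≤ zR y then 1 else if (p : ℝ) ≤ y then 0
      else tt p) := by ring
    rwa [e] at h2
  set u : ℤ := (k : ℤ) - ((m : ℤ) ^ 2 + (j : ℤ) * (m : ℤ) + (qs j : ℤ)) with hu
  have hku : (k : ℤ) = a ^ 2 + (j : ℤ) * a + (qs j : ℤ) + u := by rw [hu, hm]; ring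
  have hku4 : 4 * (k : ℤ) = (2 * a + (j : ℤ)) ^ 2 + wq (j, u) := by
    rw [hku, four_mul_form]
  have hmZ : 4 * (Z : ℤ) + 8 ≤ (m : ℤ) := by
    have : 4 * (Z : ℝ) + 8 ≤ (m : ℝ) := by linarith
    exact_mod_cast this
  have hwabs : |wq (j, u)| ≤ 4 * (Z : ℤ) + 1 := by
    have h1 := abs_le.mp hk
    have h2 : j % 2 < 2 := Nat.mod_lt _ (by norm_num)
    unfold wq
    simp only
    rw [abs_le]
    constructor <;> omega
  -- trivial factorisations
  by_cases hsq : IsSquare (-(wq (j, u)))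
  · obtain ⟨v, hv⟩ := hsq
    have hv2 : v * v ≤ 4 * (Z : ℤ) + 1 := by
      have := (abs_le.mp hwabs).1
      linarith
    refine not_prime_of_four_mul (k := k) (x := 2 * a + (j : ℤ)) (v := |v|) ?_ (abs_nonneg v)
      ?_ hkp
    · rw [sq_abs, hku4]
      have : v ^ 2 = v * v := by ring
      rw [this, ← hv]
      ring
    · rw [hm]
      have h1 : |v| ≤ v * v := by
        rcases eq_or_ne v 0 with h | h
        · rw [h]; simp
        · have h2 : 1 ≤ |v| := Int.one_le_abs h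
          have h3 : |v| * |v| = v * v := abs_mul_abs_self v
          nlinarith
      have h2 : (0 : ℤ) ≤ (j : ℤ) := by positivity
      have h3 : (0 : ℤ) ≤ (m : ℤ) := by positivity
      change |v| + 4 ≤ 2 * (m : ℤ) + (j : ℤ)
      linarith
  by_cases hbad : wq (j, u) ∈ Bad
  · have hjb : ((j, wq (j, u)) : ℕ × ℤ) ∈ range J ×ˢ Bad :=
      mem_product.mpr ⟨mem_range.mpr hj, hbad⟩
    set P : ℕ := pu (j, wq (j, u)) with hPdef
    obtain ⟨h1, h2, h3, _⟩ := hpu (j, wq (j, u)) hjb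
    have hpB : P ∈ B := mem_image.mpr ⟨(j, wq (j, u)), hjb, rfl⟩
    have hpS : P ∈ S := mem_union_right _ hpB
    have h4 := hdiv P hpS
    rw [if_neg (not_le.mpr (lt_of_le_of_lt hzy h2)), if_neg (not_le.mpr h2)] at h4
    have h5 := htt P (j, wq (j, u)) hjb rfl
    simp only at h5
    apply hnd P h1 (h3.trans hR2)
    apply odd_dvd h1 (hodd P h2)
    rw [hku4, C1e_congr (wq (j, u)) P _ (2 * tt P + (j : ℤ))]
    · exact h5
    · have e : 2 * a + (j : ℤ) - (2 * tt P + (j : ℤ)) = 2 * (a - tt P) := by ring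
      rw [e]
      exact Dvd.dvd.mul_left h4 _
  by_cases hG : ((j, u) : ℕ × ℤ) ∈ GQ y J Z Bad
  · obtain ⟨p, hp1, hp2, hp3, hp4⟩ := hcv (j, u) hG
    apply hnd p hp1 (hp3.trans hR3)
    apply odd_dvd hp1 hp2
    rw [hku4]
    exact hp4
  · apply hG
    unfold GQ
    rw [mem_filter, mem_product, mem_range, mem_Icc]
    refine ⟨⟨hj, abs_le.mp hk⟩, hsq, hbad, ?_, ?_⟩
    · intro p hp hp1 hp2 hpu'
      have hpS : p ∈ S := mem_union_left _ ((hS₁mem p).mpr ⟨hp, hp2⟩)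
      have h4 := hdiv p hpS
      rw [if_neg (not_le.mpr hp1), if_pos hp2, sub_zero] at h4
      apply hnd p hp (hp2.trans hR1)
      have h6 : (k : ℤ) = a * (a + (j : ℤ)) + ((qs j : ℤ) + u) := by rw [hku]; ring
      rw [h6]
      exact dvd_add (Dvd.dvd.mul_right h4 _) hpu'
    · intro p hp hp1 hpu'
      have hp2 : (p : ℝ) ≤ y := hp1.trans hzy
      have hpS : p ∈ S := mem_union_left _ ((hS₁mem p).mpr ⟨hp, hp2⟩)
      have h4 := hdiv p hpS
      rw [if_pos hp1] at h4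
      apply hnd p hp (hp2.trans hR1)
      have h6 : (k : ℤ) = (a - 1) * (a + 1 + (j : ℤ)) + (1 + (j : ℤ) + (qs j : ℤ) + u) := by
        rw [hku]; ring
      rw [h6]
      exact dvd_add (Dvd.dvd.mul_right h4 _) hpu'

end Pool.Agent.U602.SQ.L
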